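import Mathlib
import Pool.Agent.H112R2.Dim

set_option autoImplicit false

/-! # Symmetric convex bodies as unit balls (helper164) -/

namespace Pool.Agent.X164.BO

open Topology

/-- integral points of the balls of a seminorm with bounded unit ball -/
lemma LL_finite {m : ℕ} (S : Seminorm ℝ (Fin m → ℝ)) {ρ : ℝ} (hρ : ∀ x, S x ≤ 1 → ‖x‖ ≤ ρ) (r : ℝ) :
    (H112.LL S r).Finite := by
  classical
  obtain ⟨s, hs, hrs⟩ : ∃ s : ℝ, 0 < s ∧ r ≤ s := ⟨|r| + 1, by positivity, by linarith [le_abs_self r]⟩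
  have hρ0 : 0 ≤ ρ := (norm_nonneg _).trans (hρ 0 (by simp))
  obtain ⟨M, hM⟩ := exists_nat_ge (s * ρ)
  refine (Set.finite_Icc (fun _ : Fin m => -(M : ℤ)) (fun _ => (M : ℤ))).subset fun c hc => ?_
  have h1 : S (fun i => (c i : ℝ)) ≤ s := le_trans hc hrs
  have h2 : S (s⁻¹ • (fun i => (c i : ℝ))) ≤ 1 := by
    rw [map_smul_eq_mul, Real.norm_eq_abs, abs_of_pos (inv_pos.mpr hs)]
    rw [inv_mul_le_iff₀ hs, mul_one]
    exact h1
  have h3 := hρ _ h2
  rw [norm_smul, Real.norm_eq_abs, abs_of_pos (inv_pos.mpr hs), inv_mul_le_iff₀ hs] at h3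
  have h4 : ∀ i, |c i| ≤ (M : ℤ) := by
    intro i
    have h5 : |(c i : ℝ)| ≤ ‖(fun i => (c i : ℝ))‖ := norm_le_pi_norm (fun i => (c i : ℝ)) i
    have h6 : |(c i : ℝ)| ≤ (M : ℝ) := h5.trans (h3.trans hM)
    exact_mod_cast h6
  rw [Set.mem_Icc]
  exact ⟨fun i => (abs_le.mp (h4 i)).1, fun i => (abs_le.mp (h4 i)).2⟩

lemma body_seminorm {m : ℕ} (B : Set (Fin m → ℝ)) (hc : Convex ℝ B) (hk : IsCompact B)
    (hi : (interior B).Nonempty) (hs : ∀ x ∈ B, -x ∈ B) :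
    ∃ S : Seminorm ℝ (Fin m → ℝ), (∀ x, x ∈ B ↔ S x ≤ 1) ∧ ∀ r, (H112.LL S r).Finite := by
  obtain ⟨x, hx⟩ := hi
  have h0 : (0 : Fin m → ℝ) ∈ interior B := by
    have h1 := hc.combo_interior_self_mem_interior hx (hs x (interior_subset hx))
      (show (0 : ℝ) < 1 / 2 by norm_num) (show (0 : ℝ) ≤ 1 / 2 by norm_num) (by norm_num)
    simpa using h1
  have hnhds : B ∈ 𝓝 (0 : Fin m → ℝ) := mem_interior_iff_mem_nhds.mp h0
  have habs : Absorbent ℝ B := absorbent_nhds_zero hnhds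
  have hbal : Balanced ℝ B := by
    rw [balanced_iff_smul_mem]
    intro a ha y hy
    rw [Real.norm_eq_abs] at ha
    have h0B : (0 : Fin m → ℝ) ∈ B := interior_subset h0
    rcases le_total 0 a with h | h
    · rw [abs_of_nonneg h] at ha
      exact hc.smul_mem_of_zero_mem h0B hy ⟨h, ha⟩
    · rw [abs_of_nonpos h] at ha
      have h1 := hc.smul_mem_of_zero_mem h0B (hs y hy) ⟨neg_nonneg.mpr h, ha⟩
      simpa using h1
  refine ⟨gaugeSeminorm hbal hc habs, fun y => ?_, ?_⟩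
  · change y ∈ B ↔ gauge B y ≤ 1
    rw [gauge_le_one_iff_mem_closure hc hnhds, hk.isClosed.closure_eq]
  · obtain ⟨ρ, hρ⟩ := hk.isBounded.exists_norm_le
    refine LL_finite _ (ρ := ρ) fun y hy => hρ y ?_
    change gauge B y ≤ 1 at hy
    rwa [gauge_le_one_iff_mem_closure hc hnhds, hk.isClosed.closure_eq] at hy

end Pool.Agent.X164.BO
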