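import Mathlib
import Pool.Agent.TH858.GP.Gen
import Pool.Agent.TH858.GP.Dense2

set_option autoImplicit false

/-! # Lifting an improper progression of `ℤ/N` to a proper one of `ℤ/(N Q)` (helper164) -/

namespace Pool.Agent.X164.BO

open Finset Pool.Agent.TH858

/-- a nonzero linear form takes values in `S` for at most a proportion `|S| / Q` of the vectors -/
lemma card_lin {Q d : ℕ} [Fact Q.Prime] (D : Fin d → ZMod Q) (j : Fin d) (hj : D j ≠ 0)
    (S : Finset (ZMod Q)) :
    (univ.filter fun b : Fin d → ZMod Q => ∑ i, D i * b i ∈ S).card * Q ≤ S.card * Q ^ d := by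
  classical
  set F : Finset (Fin d → ZMod Q) := Fintype.piFinset fun i => if i = j then S else univ with hF
  have h1 : (univ.filter fun b : Fin d → ZMod Q => ∑ i, D i * b i ∈ S).card ≤ F.card := by
    refine card_le_card_of_injOn (fun b => Function.update b j (∑ i, D i * b i)) ?_ ?_
    · intro b hb
      rw [mem_coe, mem_filter] at hb
      rw [mem_coe, hF, Fintype.mem_piFinset]
      intro i
      rcases eq_or_ne i j with h | h
      · subst h
        rw [if_pos rfl]
        simpa using hb.2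
      · rw [if_neg h]
        exact mem_univ _
    · intro b _ b' _ h
      have h2 : ∀ i, i ≠ j → b i = b' i := by
        intro i hi
        have h3 := congrFun h i
        simpa [Function.update_of_ne hi] using h3
      have h3 : ∑ i, D i * b i = ∑ i, D i * b' i := by
        have h4 := congrFun h j
        simpa using h4
      have h4 : D j * b j = D j * b' j := by
        rw [← add_sum_erase univ (fun i => D i * b i) (mem_univ j),
          ← add_sum_erase univ (fun i => D i * b' i) (mem_univ j)] at h3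
        have h5 : ∑ i ∈ univ.erase j, D i * b i = ∑ i ∈ univ.erase j, D i * b' i := by
          refine sum_congr rfl fun i hi => ?_
          rw [h2 i (ne_of_mem_erase hi)]
        rw [h5] at h3
        exact add_right_cancel h3
      have h5 := mul_left_cancel₀ hj h4
      funext i
      rcases eq_or_ne i j with h6 | h6
      · rw [h6, h5]
      · exact h2 i h6
  have h2 : F.card * Q = S.card * Q ^ d := by
    rw [hF, Fintype.card_piFinset, ← mul_prod_erase univ _ (mem_univ j), if_pos rfl]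
    have h3 : ∏ i ∈ univ.erase j, (if i = j then S else (univ : Finset (ZMod Q))).card =
        Q ^ (d - 1) := by
      rw [prod_congr rfl (g := fun _ => Q) fun i hi => by
        rw [if_neg (ne_of_mem_erase hi), card_univ, ZMod.card]]
      rw [prod_const, card_erase_of_mem (mem_univ j), card_univ, Fintype.card_fin]
    rw [h3]
    have hd : d - 1 + 1 = d := Nat.sub_add_cancel (Fin.pos j)
    rw [mul_assoc, ← pow_succ, hd]
  calc _ ≤ F.card * Q := Nat.mul_le_mul_right _ h1
    _ = _ := h2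

/-- the number of representations of zero -/
noncomputable def rep {N d : ℕ} (a : Fin d → ZMod N) (L : Fin d → ℕ) : Finset (Fin d → ℤ) :=
  (GP.box (fun i => 2 * L i)).filter fun D => GP.ev a D = 0

lemma rep_pos {N d : ℕ} (a : Fin d → ZMod N) (L : Fin d → ℕ) : 0 < (rep a L).card := by
  refine card_pos.mpr ⟨0, ?_⟩
  unfold rep
  rw [mem_filter, GP.mem_box]
  refine ⟨fun i => by simp, ?_⟩
  unfold GP.ev
  simp

/-- `r |X| ≤ 3^d |box|` -/
lemma rep_mul {N d : ℕ} (a : Fin d → ZMod N) (L : Fin d → ℕ) :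
    (rep a L).card * (GP.XX a L).card ≤ 3 ^ d * (GP.box L).card := by
  classical
  have hch : ∀ x : ZMod N, ∃ n : Fin d → ℤ, x ∈ GP.XX a L → (n ∈ GP.box L ∧ GP.ev a n = x) := by
    intro x
    by_cases hx : x ∈ GP.XX a L
    · unfold GP.XX at hx
      rw [mem_image] at hx
      obtain ⟨n, h1, h2⟩ := hx
      exact ⟨n, fun _ => ⟨h1, h2⟩⟩
    · exact ⟨0, fun h => absurd h hx⟩
  choose n hn using hch
  have h1 : (rep a L ×ˢ GP.XX a L).card ≤ (GP.box (fun i => 3 * L i)).card := by
    refine card_le_card_of_injOn (fun p => p.1 + n p.2) ?_ ?_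
    · rintro ⟨D, x⟩ hp
      rw [mem_coe, mem_product] at hp
      unfold rep at hp
      rw [mem_filter, GP.mem_box] at hp
      have h2 := (hn x hp.2).1
      rw [GP.mem_box] at h2
      rw [mem_coe, GP.mem_box]
      intro i
      have h3 := abs_le.mp (hp.1.1 i)
      have h4 := abs_le.mp (h2 i)
      rw [abs_le]
      push_cast at h3 ⊢
      change -(3 * (L i : ℤ)) ≤ D i + n x i ∧ D i + n x i ≤ 3 * (L i : ℤ)
      constructor <;> linarith
    · rintro ⟨D, x⟩ hp ⟨D', x'⟩ hp' h
      rw [mem_coe, mem_product] at hp hp'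
      unfold rep at hp hp'
      rw [mem_filter] at hp hp'
      have h2 := (hn x hp.2).2
      have h2' := (hn x' hp'.2).2
      have h3 : D + n x = D' + n x' := h
      have h4 := congrArg (GP.ev a) h3
      have hadd : ∀ u v : Fin d → ℤ, GP.ev a (u + v) = GP.ev a u + GP.ev a v := by
        intro u v
        unfold GP.ev
        rw [← sum_add_distrib]
        refine sum_congr rfl fun i _ => ?_
        rw [Pi.add_apply]
        push_cast
        ring
      rw [hadd, hadd, hp.1.2, hp'.1.2, h2, h2', zero_add, zero_add] at h4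
      change x = x' at h4
      subst h4
      have h5 : D = D' := add_right_cancel h3
      rw [h5]
  rw [card_product] at h1
  refine h1.trans ?_
  rw [GP.card_box, GP.card_box]
  calc ∏ i, (2 * (3 * L i) + 1) ≤ ∏ i, (3 * (2 * L i + 1)) :=
        prod_le_prod' fun i _ => by omega
    _ = _ := by rw [prod_mul_distrib, prod_const, card_univ, Fintype.card_fin]

/-- the lifted generators -/
def gen {N : ℕ} {d : ℕ} (Q : ℕ) (a : Fin d → ZMod N) (B : Fin d → ℕ) : Fin (d + 1) → ZMod (N * Q) :=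
  Fin.cons ((N : ℕ) : ZMod (N * Q)) fun i => ((Q * (a i).val + N * B i : ℕ) : ZMod (N * Q))

lemma ev_gen {N : ℕ} {d : ℕ} (Q : ℕ) (a : Fin d → ZMod N) (B : Fin d → ℕ) (m : Fin (d + 1) → ℤ) :
    GP.ev (gen Q a B) m = (((Q : ℤ) * (∑ i, m i.succ * ((a i).val : ℤ)) +
      (N : ℤ) * (m 0 + ∑ i, m i.succ * (B i : ℤ)) : ℤ) : ZMod (N * Q)) := by
  unfold GP.ev gen
  rw [Fin.sum_univ_succ]
  simp only [Fin.cons_zero, Fin.cons_succ]
  push_cast
  rw [mul_add, mul_sum, mul_sum]
  have h : ∑ i : Fin d, (m i.succ : ZMod (N * Q)) * ((Q : ZMod (N * Q)) * ((a i).val : ZMod (N * Q)) +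
      (N : ZMod (N * Q)) * (B i : ZMod (N * Q))) =
      ∑ i : Fin d, (Q : ZMod (N * Q)) * ((m i.succ : ZMod (N * Q)) * ((a i).val : ZMod (N * Q))) +
      ∑ i : Fin d, (N : ZMod (N * Q)) * ((m i.succ : ZMod (N * Q)) * (B i : ZMod (N * Q))) := by
    rw [← sum_add_distrib]
    refine sum_congr rfl fun i _ => ?_
    ring
  rw [h]
  ring

lemma ev_val {N : ℕ} [NeZero N] {d : ℕ} (a : Fin d → ZMod N) (m : Fin d → ℤ) :
    ((∑ i, m i * ((a i).val : ℤ) : ℤ) : ZMod N) = GP.ev a m := by
  unfold GP.ev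
  push_cast
  refine sum_congr rfl fun i _ => ?_
  rw [ZMod.natCast_zmod_val]

/-- reduction modulo `N` of the lifted progression -/
lemma cast_ev_gen {N : ℕ} [NeZero N] {d : ℕ} (Q : ℕ) (a : Fin d → ZMod N) (B : Fin d → ℕ)
    (m : Fin (d + 1) → ℤ) :
    ZMod.castHom (Dvd.intro Q rfl) (ZMod N) (GP.ev (gen Q a B) m) =
      (Q : ZMod N) * GP.ev a (fun i => m i.succ) := by
  rw [ev_gen, map_intCast]
  push_cast
  rw [ZMod.natCast_self, zero_mul, add_zero]
  congr 1
  have := ev_val a (fun i => m i.succ)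
  push_cast at this
  exact this

theorem exists_lift {N : ℕ} [NeZero N] {d : ℕ} (a : Fin d → ZMod N) (L : Fin d → ℕ) :
    ∃ (Q : ℕ) (B : Fin d → ℕ) (L₀ : ℕ), Q.Prime ∧ N < Q ∧
      Set.InjOn (GP.ev (gen Q a B)) (GP.box (Fin.cons L₀ L : Fin (d + 1) → ℕ)) ∧
      ((N * Q : ℕ) : ℝ) / ((GP.box (Fin.cons L₀ L : Fin (d + 1) → ℕ)).card : ℝ) ≤
        4 * 3 ^ d * ((N : ℝ) / ((GP.XX a L).card : ℝ)) := by
  classical
  have hNpos := NeZero.pos N
  set r : ℕ := (rep a L).card with hr
  have hr0 : 0 < r := rep_pos a L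
  obtain ⟨Q, hQge, hQ⟩ := Nat.exists_infinite_primes (N + 1 + 6 * r + (∑ i, 2 * L i))
  have : Fact Q.Prime := ⟨hQ⟩
  have hQN : N < Q := by omega
  set L₀ : ℕ := ((Q - 1) / r - 1) / 4 with hL₀
  have hk6 : 6 ≤ Q / r := (Nat.le_div_iff_mul_le hr0).mpr (by omega)
  have hL1 : r * (4 * L₀ + 1) < Q := by
    have h1 : 4 * L₀ + 1 ≤ (Q - 1) / r := by
      have h2 : 1 ≤ (Q - 1) / r := (Nat.le_div_iff_mul_le hr0).mpr (by omega)
      omega
    have h2 : r * ((Q - 1) / r) ≤ Q - 1 := Nat.mul_div_le _ _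
    have h3 : r * (4 * L₀ + 1) ≤ r * ((Q - 1) / r) := Nat.mul_le_mul_left _ h1
    have h4 := hQ.pos
    omega
  have hL2 : Q ≤ 4 * r * (2 * L₀ + 1) := by
    -- `(Q - 1) / r ≤ 4 L₀ + 4`
    have h1 : (Q - 1) / r ≤ 4 * L₀ + 4 := by omega
    have h2 : Q - 1 < r * ((Q - 1) / r + 1) := Nat.lt_mul_div_succ _ hr0
    have h3 : r * ((Q - 1) / r + 1) ≤ r * (4 * L₀ + 5) := Nat.mul_le_mul_left _ (by omega)
    have h4 : Q ≤ r * (4 * L₀ + 5) := by omega
    by_cases h5 : L₀ = 0
    · -- then `Q ≤ 5 r`, contradiction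
      rw [h5] at h4
      omega
    · have h6 : 4 * L₀ + 5 ≤ 4 * (2 * L₀ + 1) := by omega
      calc Q ≤ r * (4 * L₀ + 5) := h4
        _ ≤ r * (4 * (2 * L₀ + 1)) := Nat.mul_le_mul_left _ h6
        _ = _ := by ring
  -- the bad differences
  set S : Finset (ZMod Q) := (Icc (-(2 * L₀ : ℤ)) (2 * L₀)).image (fun z : ℤ => (z : ZMod Q)) with hS
  have hScard : S.card ≤ 4 * L₀ + 1 := by
    refine card_image_le.trans ?_
    rw [Int.card_Icc]
    omega
  set 𝒟 : Finset (Fin d → ℤ) := (rep a L).erase 0 with h𝒟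
  have h𝒟card : 𝒟.card + 1 = r := by
    rw [h𝒟, card_erase_of_mem]
    · omega
    · unfold rep
      rw [mem_filter, GP.mem_box]
      exact ⟨fun i => by simp, by unfold GP.ev; simp⟩
  have hsmall : ∀ z : ℤ, |z| < Q → (z : ZMod Q) = 0 → z = 0 := by
    intro z hz h
    rw [ZMod.intCast_zmod_eq_zero_iff_dvd] at h
    exact Int.eq_zero_of_abs_lt_dvd h hz
  have hD : ∀ D ∈ 𝒟, ∃ j, ((D j : ℤ) : ZMod Q) ≠ 0 := by
    intro D hD
    rw [h𝒟, mem_erase] at hD
    obtain ⟨j, hj⟩ := Function.ne_iff.mp hD.1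
    refine ⟨j, fun h => hj (hsmall _ ?_ h)⟩
    have h2 := hD.2
    unfold rep at h2
    rw [mem_filter, GP.mem_box] at h2
    refine lt_of_le_of_lt (h2.1 j) ?_
    have h3 : 2 * L j ≤ ∑ i, 2 * L i := single_le_sum (f := fun i => 2 * L i)
      (fun i _ => Nat.zero_le _) (mem_univ j)
    exact_mod_cast (by omega : 2 * L j < Q)
  have hex : ∃ b : Fin d → ZMod Q, ∀ D ∈ 𝒟, ∑ i, ((D i : ℤ) : ZMod Q) * b i ∉ S := by
    by_contra hcon
    push Not at hcon
    have h1 : (univ : Finset (Fin d → ZMod Q)) ⊆ 𝒟.biUnion fun D =>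
        univ.filter fun b : Fin d → ZMod Q => ∑ i, ((D i : ℤ) : ZMod Q) * b i ∈ S := by
      intro b _
      obtain ⟨D, hD1, hD2⟩ := hcon b
      rw [mem_biUnion]
      exact ⟨D, hD1, mem_filter.mpr ⟨mem_univ _, hD2⟩⟩
    have h2 := card_le_card h1
    rw [card_univ, Fintype.card_fun, ZMod.card, Fintype.card_fin] at h2
    have h3 : Q ^ d * Q ≤ 𝒟.card * (S.card * Q ^ d) := by
      calc Q ^ d * Q ≤ (𝒟.biUnion fun D =>
            univ.filter fun b : Fin d → ZMod Q => ∑ i, ((D i : ℤ) : ZMod Q) * b i ∈ S).card * Q :=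
              Nat.mul_le_mul_right _ h2
        _ ≤ (∑ D ∈ 𝒟, (univ.filter fun b : Fin d → ZMod Q =>
              ∑ i, ((D i : ℤ) : ZMod Q) * b i ∈ S).card) * Q :=
              Nat.mul_le_mul_right _ card_biUnion_le
        _ = ∑ D ∈ 𝒟, (univ.filter fun b : Fin d → ZMod Q =>
              ∑ i, ((D i : ℤ) : ZMod Q) * b i ∈ S).card * Q := by rw [sum_mul]
        _ ≤ ∑ D ∈ 𝒟, S.card * Q ^ d := by
              refine sum_le_sum fun D hD1 => ?_
              obtain ⟨j, hj⟩ := hD D hD1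
              exact card_lin (fun i => ((D i : ℤ) : ZMod Q)) j hj S
        _ = _ := by rw [sum_const, smul_eq_mul]
    have h4 : Q ^ d * Q ≤ Q ^ d * (𝒟.card * S.card) := by
      calc Q ^ d * Q ≤ 𝒟.card * (S.card * Q ^ d) := h3
        _ = _ := by ring
    have h5 : Q ≤ 𝒟.card * S.card := Nat.le_of_mul_le_mul_left h4 (pow_pos hQ.pos d)
    have h6 : 𝒟.card * S.card ≤ r * (4 * L₀ + 1) := Nat.mul_le_mul (by omega) hScard
    omega
  obtain ⟨b, hb⟩ := hex
  refine ⟨Q, fun i => (b i).val, L₀, hQ, hQN, ?_, ?_⟩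
  · intro m hm m' hm' heq
    rw [mem_coe, GP.mem_box] at hm hm'
    have h1 : GP.ev (gen Q a fun i => (b i).val) m - GP.ev (gen Q a fun i => (b i).val) m' = 0 :=
      sub_eq_zero.mpr heq
    have hcop : Nat.Coprime N Q := by
      rw [Nat.coprime_comm, hQ.coprime_iff_not_dvd]
      intro h
      have := Nat.le_of_dvd hNpos h
      omega
    obtain ⟨D, hDdef⟩ : ∃ D : Fin (d + 1) → ℤ, D = m - m' := ⟨_, rfl⟩
    have hDb : ∀ i, |D i| ≤ 2 * ((Fin.cons L₀ L : Fin (d + 1) → ℕ) i : ℤ) := by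
      intro i
      rw [hDdef, Pi.sub_apply]
      have h2 := abs_le.mp (hm i)
      have h3 := abs_le.mp (hm' i)
      rw [abs_le]
      constructor <;> linarith
    have h2 : ((((Q : ℤ) * (∑ i, D (Fin.succ i) * ((a i).val : ℤ)) +
      (N : ℤ) * (D 0 + ∑ i, D (Fin.succ i) * ((b i).val : ℤ)) : ℤ)) : ZMod (N * Q)) = 0 := by
      rw [← ev_gen Q a (fun i => (b i).val) D]
      have h3 : GP.ev (gen Q a fun i => (b i).val) D = GP.ev (gen Q a fun i => (b i).val) m -
          GP.ev (gen Q a fun i => (b i).val) m' := by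
        rw [hDdef]
        unfold GP.ev
        rw [← sum_sub_distrib]
        refine sum_congr rfl fun i _ => ?_
        rw [Pi.sub_apply]
        push_cast
        ring
      rw [h3, h1]
    rw [ZMod.intCast_zmod_eq_zero_iff_dvd] at h2
    push_cast at h2
    obtain ⟨U, hU⟩ : ∃ U : ℤ, U = ∑ i, D (Fin.succ i) * ((a i).val : ℤ) := ⟨_, rfl⟩
    obtain ⟨V, hV⟩ : ∃ V : ℤ, V = D 0 + ∑ i, D (Fin.succ i) * ((b i).val : ℤ) := ⟨_, rfl⟩
    rw [← hU, ← hV] at h2
    have hcopZ : IsCoprime (N : ℤ) (Q : ℤ) := Nat.isCoprime_iff_coprime.mpr hcop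
    have hNU : (N : ℤ) ∣ U := by
      have h3 : (N : ℤ) ∣ (Q : ℤ) * U + N * V := dvd_trans (Dvd.intro _ rfl) h2
      have h4 : (N : ℤ) ∣ (Q : ℤ) * U := (dvd_add_left (Dvd.intro _ rfl)).mp h3
      exact hcopZ.dvd_of_dvd_mul_left h4
    have hQV : (Q : ℤ) ∣ V := by
      have h3 : (Q : ℤ) ∣ (Q : ℤ) * U + N * V := dvd_trans (Dvd.intro_left _ rfl) h2
      have h4 : (Q : ℤ) ∣ (N : ℤ) * V := (dvd_add_right (Dvd.intro _ rfl)).mp h3
      exact hcopZ.symm.dvd_of_dvd_mul_left h4
    have hrep : (fun i => D (Fin.succ i)) ∈ rep a L := by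
      unfold rep
      rw [mem_filter, GP.mem_box]
      refine ⟨fun i => ?_, ?_⟩
      · have := hDb (Fin.succ i)
        rw [Fin.cons_succ] at this
        push_cast
        exact this
      · rw [← ev_val, ZMod.intCast_zmod_eq_zero_iff_dvd]
        rw [hU] at hNU
        exact hNU
    have hD0 : |D 0| ≤ 2 * (L₀ : ℤ) := by
      have := hDb 0
      rwa [Fin.cons_zero] at this
    have hzero : (fun i => D (Fin.succ i)) = 0 := by
      by_contra hne
      have h3 : (fun i => D (Fin.succ i)) ∈ 𝒟 := by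
        rw [h𝒟, mem_erase]
        exact ⟨hne, hrep⟩
      refine hb _ h3 ?_
      rw [hS, mem_image]
      refine ⟨-(D 0), ?_, ?_⟩
      · have := abs_le.mp hD0
        rw [mem_Icc]
        constructor <;> linarith
      · have h4 : ((V : ℤ) : ZMod Q) = 0 := (ZMod.intCast_zmod_eq_zero_iff_dvd _ _).mpr hQV
        rw [hV] at h4
        push_cast at h4
        have h5 : ∑ i, ((D (Fin.succ i) : ℤ) : ZMod Q) * b i =
            ∑ i, ((D (Fin.succ i) : ℤ) : ZMod Q) * ((b i).val : ZMod Q) := by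
          refine sum_congr rfl fun i _ => ?_
          rw [ZMod.natCast_zmod_val]
        rw [h5]
        push_cast
        linear_combination -h4
    have hV0 : V = D 0 := by
      rw [hV]
      have : ∑ i, D (Fin.succ i) * ((b i).val : ℤ) = 0 := by
        refine sum_eq_zero fun i _ => ?_
        have := congrFun hzero i
        simp only [Pi.zero_apply] at this
        rw [this, zero_mul]
      rw [this, add_zero]
    have hD00 : D 0 = 0 := by
      rw [hV0] at hQV
      refine Int.eq_zero_of_abs_lt_dvd hQV (lt_of_le_of_lt hD0 ?_)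
      have : 4 * L₀ + 1 ≤ r * (4 * L₀ + 1) := Nat.le_mul_of_pos_left _ hr0
      exact_mod_cast (by omega : 2 * L₀ < Q)
    have hD1 : D = 0 := by
      funext i
      refine Fin.cases ?_ (fun i => ?_) i
      · exact hD00
      · exact congrFun hzero i
    rw [hDdef] at hD1
    exact sub_eq_zero.mp hD1
  · have hX : 0 < (GP.XX a L).card := by
      refine card_pos.mpr ⟨GP.ev a 0, ?_⟩
      unfold GP.XX
      refine mem_image_of_mem _ ?_
      rw [GP.mem_box]
      intro i
      simp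
    have hXr : (0 : ℝ) < (GP.XX a L).card := by exact_mod_cast hX
    have hb1 : (GP.box (Fin.cons L₀ L : Fin (d + 1) → ℕ)).card = (2 * L₀ + 1) * (GP.box L).card := by
      rw [GP.card_box, GP.card_box, Fin.prod_univ_succ]
      simp
    have hbox : 0 < (GP.box L).card := by
      rw [GP.card_box]
      exact prod_pos fun i _ => by omega
    have hboxr : (0 : ℝ) < (GP.box L).card := by exact_mod_cast hbox
    have hrm : (r : ℝ) * (GP.XX a L).card ≤ 3 ^ d * (GP.box L).card := by
      exact_mod_cast rep_mul a L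
    have hL2r : (Q : ℝ) ≤ 4 * r * (2 * L₀ + 1) := by exact_mod_cast hL2
    rw [hb1]
    push_cast
    have hNr : (0 : ℝ) < N := by exact_mod_cast hNpos
    rw [div_le_iff₀ (by positivity)]
    have e : 4 * 3 ^ d * ((N : ℝ) / ((GP.XX a L).card : ℝ)) * ((2 * (L₀ : ℝ) + 1) * (GP.box L).card) =
        N * (4 * (2 * L₀ + 1) * ((3 ^ d * (GP.box L).card) / (GP.XX a L).card)) := by
      field_simp
    rw [e]
    apply mul_le_mul_of_nonneg_left _ hNr.le
    have h3 : (r : ℝ) ≤ 3 ^ d * (GP.box L).card / (GP.XX a L).card := by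
      rw [le_div_iff₀ hXr]
      exact hrm
    calc (Q : ℝ) ≤ 4 * r * (2 * L₀ + 1) := hL2r
      _ = 4 * (2 * L₀ + 1) * r := by ring
      _ ≤ _ := by
        apply mul_le_mul_of_nonneg_left h3
        positivity

end Pool.Agent.X164.BO
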