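import Mathlib
import Pool.Agent.X164.BO.Lift

set_option autoImplicit false

/-! # Bohr sets in improper progressions, and for sets that are dense on improper progressions (helper164) -/

namespace Pool.Agent.X164.BO

open Finset Pool.Agent.TH858

/-- characters: restriction to the subgroup `Q ℤ/(N Q)` -/
lemma nn_restrict {N : ℕ} [NeZero N] {Q : ℕ} (hQ : 0 < Q) (g : ZMod (N * Q)) (x : ZMod N) :
    CB.nn (g * ((Q * x.val : ℕ) : ZMod (N * Q))) = CB.nn (((g.val : ℕ) : ZMod N) * x) := by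
  have hNpos := NeZero.pos N
  have : NeZero (N * Q) := ⟨(Nat.mul_pos hNpos hQ).ne'⟩
  have h1 := CB.nint_eq_nn (N := N * Q) (((g.val * (Q * x.val) : ℕ) : ℤ))
    (g * ((Q * x.val : ℕ) : ZMod (N * Q))) (by
      rw [Int.cast_natCast, Nat.cast_mul, ZMod.natCast_zmod_val])
  have h2 := CB.nint_eq_nn (N := N) (((g.val * x.val : ℕ) : ℤ)) (((g.val : ℕ) : ZMod N) * x) (by
      push_cast
      rw [ZMod.natCast_zmod_val])
  rw [← h1, ← h2]
  congr 1
  have hQr : (Q : ℝ) ≠ 0 := by exact_mod_cast hQ.ne'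
  have hNr : (N : ℝ) ≠ 0 := by exact_mod_cast hNpos.ne'
  push_cast
  field_simp

/-- `log` of the size of the lifted progression -/
lemma log_lift {d : ℕ} {R x y : ℝ} (hR : (d : ℝ) + 3 ≤ R) (hx : 0 < x) (hy : 1 ≤ y)
    (h : x ≤ 4 * 3 ^ d * y) :
    Real.log x / Real.log R ≤ Real.log y / Real.log R + (d + 2) := by
  have hd0 : (0 : ℝ) ≤ d := Nat.cast_nonneg d
  have hR3 : 3 ≤ R := by linarith
  have hl3 : 1 ≤ Real.log 3 := by
    rw [Real.le_log_iff_exp_le (by norm_num)]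
    have := Real.exp_one_lt_d9
    linarith
  have hlR : Real.log 3 ≤ Real.log R := Real.log_le_log (by norm_num) hR3
  have hlR0 : 0 < Real.log R := by linarith
  rw [div_le_iff₀ hlR0, add_mul, div_mul_cancel₀ _ hlR0.ne']
  have h1 : Real.log x ≤ Real.log (4 * 3 ^ d * y) := Real.log_le_log hx h
  have h2 : Real.log (4 * 3 ^ d * y) = Real.log 4 + d * Real.log 3 + Real.log y := by
    rw [Real.log_mul (by positivity) (by positivity), Real.log_mul (by norm_num) (by positivity),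
      Real.log_pow]
  have h3 : Real.log 4 ≤ 2 * Real.log 3 := by
    rw [← Real.log_rpow (by norm_num)]
    apply Real.log_le_log (by norm_num)
    norm_num
  rw [h2] at h1
  have h4 : (d : ℝ) * Real.log 3 ≤ d * Real.log R := mul_le_mul_of_nonneg_left hlR hd0
  nlinarith

/-- An arbitrary (improper) progression contains a Bohr set of small dimension. -/
theorem improper {N : ℕ} [NeZero N] {d : ℕ} (a : Fin d → ZMod N) (L : Fin d → ℕ)
    (R : ℝ) (hR : (d : ℝ) + 3 ≤ R) :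
    ∃ Γ : Finset (ZMod N), (Γ.card : ℝ) ≤ 180 * d + 186 +
        5 * (Real.log (N / (GP.XX a L).card) / Real.log R) ∧
      ∀ x : ZMod N, (∀ g ∈ Γ, CB.nn (g * x) ≤ 1 / (8 * R)) → x ∈ GP.XX a L := by
  classical
  obtain ⟨Q, B, L₀, hQ, hNQ, hinj, hsize⟩ := exists_lift a L
  have hNpos := NeZero.pos N
  have : NeZero (N * Q) := ⟨(Nat.mul_pos hNpos hQ.pos).ne'⟩
  obtain ⟨Γ', hΓ1, hΓ2⟩ := GP.general (gen Q a B) (Fin.cons L₀ L : Fin (d + 1) → ℕ) hinj R (by
    push_cast
    linarith)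
  have hX : (GP.XX (gen Q a B) (Fin.cons L₀ L : Fin (d + 1) → ℕ)).card =
      (GP.box (Fin.cons L₀ L : Fin (d + 1) → ℕ)).card := by
    unfold GP.XX
    rw [card_image_of_injOn hinj]
  have hXpos : 0 < (GP.XX a L).card := by
    refine card_pos.mpr ⟨GP.ev a 0, ?_⟩
    unfold GP.XX
    refine mem_image_of_mem _ ?_
    rw [GP.mem_box]
    intro i
    simp
  have hXN : (GP.XX a L).card ≤ N := by
    refine (card_le_univ _).trans ?_
    rw [ZMod.card]
  have hXr : (0 : ℝ) < (GP.XX a L).card := by exact_mod_cast hXpos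
  have hy : (1 : ℝ) ≤ N / (GP.XX a L).card := by
    rw [le_div_iff₀ hXr, one_mul]
    exact_mod_cast hXN
  have hbpos : 0 < (GP.box (Fin.cons L₀ L : Fin (d + 1) → ℕ)).card := by
    rw [GP.card_box]
    exact prod_pos fun i _ => by omega
  have hx : (0 : ℝ) < ((N * Q : ℕ) : ℝ) / ((GP.box (Fin.cons L₀ L : Fin (d + 1) → ℕ)).card : ℝ) := by
    apply div_pos
    · exact_mod_cast Nat.mul_pos hNpos hQ.pos
    · exact_mod_cast hbpos
  have hlog := log_lift hR hx hy hsize
  refine ⟨Γ'.image fun g => ((g.val : ℕ) : ZMod N), ?_, fun x hxΓ => ?_⟩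
  · have h1 : ((Γ'.image fun g => ((g.val : ℕ) : ZMod N)).card : ℝ) ≤ Γ'.card := by
      exact_mod_cast card_image_le
    rw [hX] at hΓ1
    have e : ((d + 1 : ℕ) : ℝ) = (d : ℝ) + 1 := by push_cast; ring
    rw [e] at hΓ1
    linarith
  · have h1 : ((Q * x.val : ℕ) : ZMod (N * Q)) ∈
        GP.XX (gen Q a B) (Fin.cons L₀ L : Fin (d + 1) → ℕ) := by
      refine hΓ2 _ fun g hg => ?_
      rw [nn_restrict hQ.pos]
      exact hxΓ _ (mem_image_of_mem (fun g : ZMod (N * Q) => ((g.val : ℕ) : ZMod N)) hg)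
    unfold GP.XX at h1 ⊢
    rw [mem_image] at h1 ⊢
    obtain ⟨m, hm, hmx⟩ := h1
    rw [GP.mem_box] at hm
    refine ⟨fun i => m i.succ, ?_, ?_⟩
    · rw [GP.mem_box]
      intro i
      have := hm i.succ
      rwa [Fin.cons_succ] at this
    · have h2 := congrArg (ZMod.castHom (Dvd.intro Q rfl) (ZMod N)) hmx
      rw [cast_ev_gen, map_natCast] at h2
      push_cast at h2
      rw [ZMod.natCast_zmod_val] at h2
      have hcop : Nat.Coprime Q N := by
        rw [hQ.coprime_iff_not_dvd]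
        intro h
        have := Nat.le_of_dvd hNpos h
        omega
      have hu : IsUnit (Q : ZMod N) := (ZMod.isUnit_iff_coprime Q N).mpr hcop
      exact hu.mul_left_cancel h2

/-- A set that contains a random point `t + n_1 a_1 + … + n_d a_d` of an arbitrary progression
with probability at least `δ`. -/
theorem dense_improper {N : ℕ} [NeZero N] {d : ℕ} (a : Fin d → ZMod N) (L : Fin d → ℕ)
    (R δ : ℝ) (hR : (d : ℝ) + 3 ≤ R) (hδ : 0 < δ) (hδR : 1 ≤ δ * R)
    (A : Finset (ZMod N)) (t : ZMod N)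
    (hA : δ * (GP.box L).card ≤ (((GP.box L).filter fun n => t + GP.ev a n ∈ A).card : ℝ)) :
    ∃ Γ : Finset (ZMod N), (Γ.card : ℝ) ≤ 300 * d + 306 +
        5 * (Real.log (N / (GP.XX a L).card) / Real.log R) + 32 / δ ^ 2 ∧
      ∀ x : ZMod N, (∀ g ∈ Γ, CB.nn (g * x) ≤ 1 / (8 * R)) →
        ∃ a₁ ∈ A, ∃ a₂ ∈ A, ∃ a₃ ∈ A, ∃ a₄ ∈ A, x = a₁ + a₂ - a₃ - a₄ := by
  classical
  obtain ⟨Q, B, L₀, hQ, hNQ, hinj, hsize⟩ := exists_lift a L
  have hNpos := NeZero.pos N
  have : NeZero (N * Q) := ⟨(Nat.mul_pos hNpos hQ.pos).ne'⟩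
  have hcop : Nat.Coprime Q N := by
    rw [hQ.coprime_iff_not_dvd]
    intro h
    have := Nat.le_of_dvd hNpos h
    omega
  have hu : IsUnit (Q : ZMod N) := (ZMod.isUnit_iff_coprime Q N).mpr hcop
  set π : ZMod (N * Q) →+* ZMod N := ZMod.castHom (Dvd.intro Q rfl) (ZMod N) with hπ
  set P : Finset (ZMod (N * Q)) := GP.XX (gen Q a B) (Fin.cons L₀ L : Fin (d + 1) → ℕ) with hP
  set τ : ZMod (N * Q) := ((Q * t.val : ℕ) : ZMod (N * Q)) with hτ
  have hπτ : π τ = (Q : ZMod N) * t := by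
    rw [hτ, map_natCast]
    push_cast
    rw [ZMod.natCast_zmod_val]
  set A' : Finset (ZMod (N * Q)) := (P.image fun z => τ + z).filter
    (fun z => ∃ y ∈ A, π z = (Q : ZMod N) * y) with hA'
  have hX : P.card = (GP.box (Fin.cons L₀ L : Fin (d + 1) → ℕ)).card := by
    rw [hP]
    unfold GP.XX
    rw [card_image_of_injOn hinj]
  have hb1 : (GP.box (Fin.cons L₀ L : Fin (d + 1) → ℕ)).card = (2 * L₀ + 1) * (GP.box L).card := by
    rw [GP.card_box, GP.card_box, Fin.prod_univ_succ]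
    simp
  have hcard : (2 * L₀ + 1) * ((GP.box L).filter fun n => t + GP.ev a n ∈ A).card ≤ A'.card := by
    have h1 : (Icc (-(L₀ : ℤ)) L₀ ×ˢ ((GP.box L).filter fun n => t + GP.ev a n ∈ A)).card ≤ A'.card := by
      refine card_le_card_of_injOn
        (fun p => τ + GP.ev (gen Q a B) (Fin.cons p.1 p.2 : Fin (d + 1) → ℤ)) ?_ ?_
      · rintro ⟨z, n⟩ hp
        rw [mem_coe, mem_product, mem_Icc, mem_filter, GP.mem_box] at hp
        have hbox : (Fin.cons z n : Fin (d + 1) → ℤ) ∈ GP.box (Fin.cons L₀ L : Fin (d + 1) → ℕ) := by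
          rw [GP.mem_box]
          intro i
          refine Fin.cases ?_ (fun i => ?_) i
          · rw [Fin.cons_zero, Fin.cons_zero]
            exact abs_le.mpr hp.1
          · rw [Fin.cons_succ, Fin.cons_succ]
            exact hp.2.1 i
        rw [mem_coe, hA', mem_filter]
        refine ⟨mem_image_of_mem _ ?_, t + GP.ev a n, hp.2.2, ?_⟩
        · rw [hP]
          unfold GP.XX
          exact mem_image_of_mem _ hbox
        · change π (τ + GP.ev (gen Q a B) (Fin.cons z n : Fin (d + 1) → ℤ)) = _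
          rw [map_add, hπτ, hπ, cast_ev_gen, mul_add]
          simp only [Fin.cons_succ]
      · rintro ⟨z, n⟩ hp ⟨z', n'⟩ hp' heq
        rw [mem_coe, mem_product, mem_Icc, mem_filter, GP.mem_box] at hp hp'
        have h2 : GP.ev (gen Q a B) (Fin.cons z n : Fin (d + 1) → ℤ) =
            GP.ev (gen Q a B) (Fin.cons z' n' : Fin (d + 1) → ℤ) := add_left_cancel heq
        have h3 := hinj (by
          rw [mem_coe, GP.mem_box]
          intro i
          refine Fin.cases ?_ (fun i => ?_) i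
          · rw [Fin.cons_zero, Fin.cons_zero]
            exact abs_le.mpr hp.1
          · rw [Fin.cons_succ, Fin.cons_succ]
            exact hp.2.1 i) (by
          rw [mem_coe, GP.mem_box]
          intro i
          refine Fin.cases ?_ (fun i => ?_) i
          · rw [Fin.cons_zero, Fin.cons_zero]
            exact abs_le.mpr hp'.1
          · rw [Fin.cons_succ, Fin.cons_succ]
            exact hp'.2.1 i) h2
        rw [Fin.cons_inj] at h3
        rw [h3.1, h3.2]
    rw [card_product, Int.card_Icc] at h1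
    have e : ((L₀ : ℤ) + 1 - -(L₀ : ℤ)).toNat = 2 * L₀ + 1 := by omega
    rwa [e] at h1
  have hdens : δ * (P.card : ℝ) ≤ (A'.card : ℝ) := by
    rw [hX, hb1]
    push_cast
    have h1 : ((2 * L₀ + 1 : ℕ) : ℝ) * (((GP.box L).filter fun n => t + GP.ev a n ∈ A).card : ℝ) ≤
        (A'.card : ℝ) := by exact_mod_cast hcard
    push_cast at h1
    calc δ * ((2 * (L₀ : ℝ) + 1) * ((GP.box L).card : ℝ)) =
          (2 * (L₀ : ℝ) + 1) * (δ * ((GP.box L).card : ℝ)) := by ring
      _ ≤ (2 * (L₀ : ℝ) + 1) * (((GP.box L).filter fun n => t + GP.ev a n ∈ A).card : ℝ) :=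
          mul_le_mul_of_nonneg_left hA (by positivity)
      _ ≤ _ := h1
  obtain ⟨Γ', hΓ1, hΓ2⟩ := GP.dense (gen Q a B) (Fin.cons L₀ L : Fin (d + 1) → ℕ) hinj R δ (by
    push_cast
    linarith) hδ hδR A' τ (by
      intro y hy
      rw [hA', mem_filter, mem_image] at hy
      obtain ⟨⟨z, hz, rfl⟩, -⟩ := hy
      rw [add_sub_cancel_left]
      exact hz) hdens
  have hXpos : 0 < (GP.XX a L).card := by
    refine card_pos.mpr ⟨GP.ev a 0, ?_⟩
    unfold GP.XX
    refine mem_image_of_mem _ ?_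
    rw [GP.mem_box]
    intro i
    simp
  have hXN : (GP.XX a L).card ≤ N := by
    refine (card_le_univ _).trans ?_
    rw [ZMod.card]
  have hXr : (0 : ℝ) < (GP.XX a L).card := by exact_mod_cast hXpos
  have hy : (1 : ℝ) ≤ N / (GP.XX a L).card := by
    rw [le_div_iff₀ hXr, one_mul]
    exact_mod_cast hXN
  have hbpos : 0 < (GP.box (Fin.cons L₀ L : Fin (d + 1) → ℕ)).card := by
    rw [GP.card_box]
    exact prod_pos fun i _ => by omega
  have hx : (0 : ℝ) < ((N * Q : ℕ) : ℝ) / ((GP.box (Fin.cons L₀ L : Fin (d + 1) → ℕ)).card : ℝ) := by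
    apply div_pos
    · exact_mod_cast Nat.mul_pos hNpos hQ.pos
    · exact_mod_cast hbpos
  have hlog := log_lift hR hx hy hsize
  refine ⟨Γ'.image fun g => ((g.val : ℕ) : ZMod N), ?_, fun x hxΓ => ?_⟩
  · have h1 : ((Γ'.image fun g => ((g.val : ℕ) : ZMod N)).card : ℝ) ≤ Γ'.card := by
      exact_mod_cast card_image_le
    change _ ≤ _ + _ + 5 * (Real.log (_ / (P.card : ℝ)) / _) + _ at hΓ1
    rw [hX] at hΓ1
    have e : ((d + 1 : ℕ) : ℝ) = (d : ℝ) + 1 := by push_cast; ring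
    rw [e] at hΓ1
    linarith
  · obtain ⟨a₁, h₁, a₂, h₂, a₃, h₃, a₄, h₄, hxa⟩ := hΓ2 ((Q * x.val : ℕ) : ZMod (N * Q)) fun g hg => by
      rw [nn_restrict hQ.pos]
      exact hxΓ _ (mem_image_of_mem (fun g : ZMod (N * Q) => ((g.val : ℕ) : ZMod N)) hg)
    rw [hA', mem_filter] at h₁ h₂ h₃ h₄
    obtain ⟨-, y₁, hy₁, e₁⟩ := h₁
    obtain ⟨-, y₂, hy₂, e₂⟩ := h₂
    obtain ⟨-, y₃, hy₃, e₃⟩ := h₃
    obtain ⟨-, y₄, hy₄, e₄⟩ := h₄
    refine ⟨y₁, hy₁, y₂, hy₂, y₃, hy₃, y₄, hy₄, ?_⟩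
    have h2 := congrArg π hxa
    rw [map_sub, map_sub, map_add, e₁, e₂, e₃, e₄, map_natCast] at h2
    push_cast at h2
    rw [ZMod.natCast_zmod_val] at h2
    apply hu.mul_left_cancel
    rw [h2]
    ring

end Pool.Agent.X164.BO
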