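import Mathlib
import Pool.Agent.X164.BO.Imp
import Pool.Agent.H112R2.Gap

set_option autoImplicit false

/-! # Bohr sets in (improper) convex coset progressions (helper164) -/

namespace Pool.Agent.X164.BO

open Finset Pool.Agent.TH858
open scoped Pointwise

/-- Covering the lattice points of a ball by few translates of a box progression inside it. -/
theorem cover_box {m : ℕ} (𝓝 : Seminorm ℝ (Fin m → ℝ)) {r : ℝ} (hr : 0 ≤ r)
    (hfin : (H112.LL 𝓝 (2 * r)).Finite) :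
    ∃ (k : ℕ) (v : Fin k → (Fin m → ℤ)) (L : Fin k → ℕ) (T : Finset (Fin m → ℤ)), k ≤ m ∧
      (∀ a : Fin k → ℤ, (∀ i, |a i| ≤ L i) → ∑ i, a i • v i ∈ H112.LL 𝓝 r) ∧
      (∀ c ∈ H112.LL 𝓝 r, ∃ t ∈ T, ∃ a : Fin k → ℤ, (∀ i, |a i| ≤ L i) ∧ c = t + ∑ i, a i • v i) ∧
      (∀ t ∈ T, t ∈ H112.LL 𝓝 r) ∧ LinearIndependent ℤ v ∧
      (T.card : ℝ) ≤ (4 * m + 1) ^ m * (12 * m ^ 3) ^ m := by
  classical
  have hfin1 : (H112.LL 𝓝 r).Finite := hfin.subset (H112.gap_LL_mono 𝓝 (by linarith))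
  obtain ⟨k, v, L, hkm, hlin, hgap, hcard⟩ := H112.discrete_john 𝓝 hr hfin1
  set f : (Fin k → ℤ) → (Fin m → ℤ) := fun a => ∑ i, a i • v i with hf
  have hinj : Function.Injective f := by
    intro a b hab
    have h0 : ∑ i, (a i - b i) • v i = 0 := by
      simp only [sub_smul, Finset.sum_sub_distrib]
      exact sub_eq_zero.mpr hab
    have := Fintype.linearIndependent_iff.1 hlin (fun i => a i - b i) h0
    funext i
    exact sub_eq_zero.1 (this i)
  have hfsub : ∀ a b, f (a - b) = f a - f b := by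
    intro a b
    simp only [hf, Pi.sub_apply, sub_smul, Finset.sum_sub_distrib]
  set L' : Fin k → ℕ := fun i => L i / 2 with hL'
  set A : Finset (Fin m → ℤ) := hfin1.toFinset with hA
  set B : Finset (Fin m → ℤ) := (GP.box L').image f with hB
  have hBcard : B.card = ∏ i, (2 * L' i + 1) := by
    rw [hB, card_image_of_injective _ hinj, GP.card_box]
  have hBpos : 0 < B.card := by
    rw [hBcard]
    exact prod_pos fun i _ => by omega
  have hAB : (A + B).card ≤ (H112.LL 𝓝 (2 * r)).ncard := by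
    rw [← Set.ncard_coe_finset]
    refine Set.ncard_le_ncard ?_ hfin
    intro z hz
    rw [mem_coe, mem_add] at hz
    obtain ⟨x, hx, y, hy, rfl⟩ := hz
    rw [hA, Set.Finite.mem_toFinset] at hx
    rw [hB, mem_image] at hy
    obtain ⟨a, ha, rfl⟩ := hy
    rw [GP.mem_box] at ha
    rw [two_mul]
    refine H112.gap_LL_add 𝓝 hx (hgap a fun i => (ha i).trans ?_)
    have : L' i ≤ L i := Nat.div_le_self _ _
    exact_mod_cast this
  have hdoub := H112.doubling 𝓝 (r := 2 * r) (by linarith) hfin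
  rw [show 2 * r / 2 = r by ring] at hdoub
  have h3 : ∏ i, (2 * L i + 1) ≤ 3 ^ k * B.card := by
    rw [hBcard]
    calc ∏ i, (2 * L i + 1) ≤ ∏ i, (3 * (2 * L' i + 1)) := prod_le_prod' fun i _ => by
          have : L' i = L i / 2 := rfl
          omega
      _ = _ := by rw [prod_mul_distrib, prod_const, card_univ, Fintype.card_fin]
  have hK : ((A + B).card : ℝ) ≤ ((4 * m + 1) ^ m * (12 * m ^ 3) ^ m) * (B.card : ℝ) := by
    have h4 : (A + B).card ≤ (4 * m + 1) ^ m * ((4 * k ^ 3) ^ k * (3 ^ k * B.card)) := by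
      refine hAB.trans (hdoub.trans (Nat.mul_le_mul_left _ (hcard.trans ?_)))
      exact Nat.mul_le_mul_left _ h3
    have h5 : ((A + B).card : ℝ) ≤ (4 * m + 1) ^ m * ((4 * k ^ 3) ^ k * (3 ^ k * B.card)) := by
      exact_mod_cast h4
    have h6 := H112.gap_pow_le hkm
    calc ((A + B).card : ℝ) ≤ (4 * m + 1) ^ m * ((4 * k ^ 3) ^ k * (3 ^ k * B.card)) := h5
      _ = (4 * m + 1) ^ m * ((12 * (k : ℝ) ^ 3) ^ k * B.card) := by
          rw [show (12 : ℝ) * (k : ℝ) ^ 3 = (4 * (k : ℝ) ^ 3) * 3 by ring,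
            mul_pow (4 * (k : ℝ) ^ 3) 3 k, mul_assoc]
      _ ≤ (4 * m + 1) ^ m * ((12 * (m : ℝ) ^ 3) ^ m * B.card) := by gcongr
      _ = _ := by ring
  obtain ⟨F, hFA, hF, hcov⟩ := Finset.ruzsa_covering_add (card_pos.mp hBpos) hK
  refine ⟨k, v, L, F, hkm, hgap, ?_, ?_, hlin, hF⟩
  · intro c hc
    have hcA : c ∈ A := by rw [hA, Set.Finite.mem_toFinset]; exact hc
    have h7 := hcov hcA
    rw [mem_add] at h7
    obtain ⟨t, ht, z, hz, rfl⟩ := h7
    rw [mem_sub] at hz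
    obtain ⟨x, hx, y, hy, rfl⟩ := hz
    rw [hB, mem_image] at hx hy
    obtain ⟨a, ha, rfl⟩ := hx
    obtain ⟨b, hb, rfl⟩ := hy
    rw [GP.mem_box] at ha hb
    refine ⟨t, ht, a - b, fun i => ?_, ?_⟩
    · have h8 := abs_le.mp (ha i)
      have h9 := abs_le.mp (hb i)
      have h10 : 2 * ((L i / 2 : ℕ) : ℤ) ≤ (L i : ℤ) := by exact_mod_cast Nat.mul_div_le (L i) 2
      have h11 : ((L' i : ℕ) : ℤ) = ((L i / 2 : ℕ) : ℤ) := rfl
      rw [Pi.sub_apply, abs_le]
      constructor <;> linarith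
    · rw [← hfsub]
  · intro t ht
    have := hFA ht
    rwa [hA, Set.Finite.mem_toFinset] at this

/-- the generator of a subgroup of `ℤ/N` -/
lemma subgroup_gen {N : ℕ} [NeZero N] (H : AddSubgroup (ZMod N)) :
    ∃ (g : ZMod N) (h : ℕ), g ∈ H ∧ ∀ x ∈ H, ∃ j : ℤ, |j| ≤ h ∧ x = (j : ZMod N) * g := by
  classical
  have hcyc : IsAddCyclic (ZMod N) := inferInstance
  obtain ⟨g, hg⟩ := (inferInstance : IsAddCyclic H).exists_generator
  refine ⟨g.1, N, g.2, fun x hx => ?_⟩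
  obtain ⟨j, hj⟩ := AddSubgroup.mem_zmultiples_iff.mp (hg ⟨x, hx⟩)
  refine ⟨j % N, ?_, ?_⟩
  · have hN : (0 : ℤ) < N := by exact_mod_cast NeZero.pos N
    rw [abs_of_nonneg (Int.emod_nonneg _ hN.ne')]
    exact (Int.emod_lt_of_pos _ hN).le
  · have h1 : x = j • (g : ZMod N) := by
      have h2 := congrArg (fun y : H => (y : ZMod N)) hj
      simpa using h2.symm
    rw [h1, zsmul_eq_mul]
    congr 1
    rw [ZMod.intCast_mod]

lemma pow_bound {m : ℕ} {R : ℝ} (hR : (m : ℝ) + 4 ≤ R) :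
    (4 * (m : ℝ) + 1) ^ m * (12 * (m : ℝ) ^ 3) ^ m ≤ R ^ (7 * m) := by
  have hm : (0 : ℝ) ≤ m := Nat.cast_nonneg m
  have hR4 : 4 ≤ R := by linarith
  rw [← mul_pow, pow_mul]
  apply pow_le_pow_left₀ (by positivity)
  have h1 : 4 * (m : ℝ) + 1 ≤ R ^ 2 := by nlinarith
  have h2 : 12 * (m : ℝ) ^ 3 ≤ R ^ 5 := by
    have h3 : (m : ℝ) ^ 3 ≤ R ^ 3 := pow_le_pow_left₀ hm (by linarith) 3
    have h4 : (12 : ℝ) ≤ R ^ 2 := by nlinarith
    calc 12 * (m : ℝ) ^ 3 ≤ R ^ 2 * R ^ 3 := by gcongr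
      _ = R ^ 5 := by ring
  calc (4 * (m : ℝ) + 1) * (12 * (m : ℝ) ^ 3) ≤ R ^ 2 * R ^ 5 := by gcongr
    _ = R ^ 7 := by ring

/-- Every convex coset progression (proper or not) contains a Bohr set of small dimension. -/
theorem convex {N : ℕ} [NeZero N] {m : ℕ} (𝓝 : Seminorm ℝ (Fin m → ℝ)) {r : ℝ} (hr : 0 ≤ r)
    (hfin : (H112.LL 𝓝 (2 * r)).Finite) (ψ : (Fin m → ℤ) →+ ZMod N) (H : AddSubgroup (ZMod N))
    (P : Finset (ZMod N)) (hP0 : P.Nonempty) (hP : ∀ x ∈ P, ∃ c ∈ H112.LL 𝓝 r, x - ψ c ∈ H)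
    (R : ℝ) (hR : (m : ℝ) + 4 ≤ R) :
    ∃ Γ : Finset (ZMod N), (Γ.card : ℝ) ≤ 215 * m + 366 + 5 * (Real.log (N / P.card) / Real.log R) ∧
      ∀ x : ZMod N, (∀ g ∈ Γ, CB.nn (g * x) ≤ 1 / (8 * R)) → ∃ c ∈ H112.LL 𝓝 r, x - ψ c ∈ H := by
  classical
  obtain ⟨k, v, L, T, hkm, hgap, hcov, -, -, hT⟩ := cover_box 𝓝 hr hfin
  obtain ⟨g, h, hgH, hgen⟩ := subgroup_gen H
  set a : Fin (k + 1) → ZMod N := Fin.cons g (fun i => ψ (v i)) with ha
  set L' : Fin (k + 1) → ℕ := Fin.cons h L with hL'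
  have hev : ∀ n : Fin (k + 1) → ℤ, GP.ev a n = (n 0 : ZMod N) * g + ψ (∑ i, n (Fin.succ i) • v i) := by
    intro n
    unfold GP.ev
    rw [Fin.sum_univ_succ, ha, Fin.cons_zero, map_sum]
    congr 1
    refine sum_congr rfl fun i _ => ?_
    rw [Fin.cons_succ, map_zsmul, zsmul_eq_mul]
  have hkR : ((k + 1 : ℕ) : ℝ) + 3 ≤ R := by
    have : (k : ℝ) ≤ m := by exact_mod_cast hkm
    push_cast
    linarith
  obtain ⟨Γ, hΓ1, hΓ2⟩ := improper a L' R hkR
  -- the progression covers `P`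
  have hPc : P.card ≤ T.card * (GP.XX a L').card := by
    have h1 : P ⊆ (T ×ˢ GP.XX a L').image fun p => ψ p.1 + p.2 := by
      intro x hx
      obtain ⟨c, hc, hxc⟩ := hP x hx
      obtain ⟨t, ht, n, hn, rfl⟩ := hcov c hc
      obtain ⟨j, hj, hjx⟩ := hgen _ hxc
      rw [mem_image]
      refine ⟨(t, GP.ev a (Fin.cons j n : Fin (k + 1) → ℤ)), ?_, ?_⟩
      · rw [mem_product]
        refine ⟨ht, ?_⟩
        unfold GP.XX
        refine mem_image_of_mem _ ?_
        rw [GP.mem_box]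
        intro i
        refine Fin.cases ?_ (fun i => ?_) i
        · rw [Fin.cons_zero, hL', Fin.cons_zero]; exact hj
        · rw [Fin.cons_succ, hL', Fin.cons_succ]; exact hn i
      · change ψ t + GP.ev a (Fin.cons j n : Fin (k + 1) → ℤ) = x
        rw [hev, Fin.cons_zero, ← hjx]
        simp only [Fin.cons_succ]
        rw [map_add]
        ring
    calc P.card ≤ ((T ×ˢ GP.XX a L').image fun p => ψ p.1 + p.2).card := card_le_card h1
      _ ≤ (T ×ˢ GP.XX a L').card := card_image_le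
      _ = _ := card_product _ _
  have hR4 : 4 ≤ R := by
    have : (0 : ℝ) ≤ m := Nat.cast_nonneg m
    linarith
  have hlogR : 0 < Real.log R := Real.log_pos (by linarith)
  have hNpos : (0 : ℝ) < N := by exact_mod_cast NeZero.pos N
  have hPpos : (0 : ℝ) < P.card := by exact_mod_cast hP0.card_pos
  have hXpos : 0 < (GP.XX a L').card := by
    by_contra h0
    have h1 : (GP.XX a L').card = 0 := by omega
    rw [h1, mul_zero] at hPc
    have := hP0.card_pos
    omega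
  have hXr : (0 : ℝ) < (GP.XX a L').card := by exact_mod_cast hXpos
  have hlog : Real.log (N / (GP.XX a L').card) ≤ Real.log (N / P.card) + 7 * m * Real.log R := by
    have h1 : (N : ℝ) / (GP.XX a L').card ≤ N / P.card * R ^ (7 * m) := by
      rw [div_mul_eq_mul_div, div_le_div_iff₀ hXr hPpos]
      have h2 : (P.card : ℝ) ≤ R ^ (7 * m) * (GP.XX a L').card := by
        calc (P.card : ℝ) ≤ (T.card : ℝ) * (GP.XX a L').card := by exact_mod_cast hPc
          _ ≤ R ^ (7 * m) * (GP.XX a L').card := by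
              apply mul_le_mul_of_nonneg_right _ hXr.le
              exact hT.trans (pow_bound hR)
      calc (N : ℝ) * P.card ≤ N * (R ^ (7 * m) * (GP.XX a L').card) := by gcongr
        _ = _ := by ring
    have h2 := Real.log_le_log (by positivity) h1
    rw [Real.log_mul (by positivity) (by positivity), Real.log_pow] at h2
    push_cast at h2
    exact h2
  refine ⟨Γ, ?_, fun x hx => ?_⟩
  · have h1 : Real.log (N / (GP.XX a L').card) / Real.log R ≤ Real.log (N / P.card) / Real.log R + 7 * m := by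
      rw [div_le_iff₀ hlogR, add_mul, div_mul_cancel₀ _ hlogR.ne']
      exact hlog
    have h2 : (k : ℝ) ≤ m := by exact_mod_cast hkm
    push_cast at hΓ1
    linarith
  · have h1 := hΓ2 x hx
    unfold GP.XX at h1
    rw [mem_image] at h1
    obtain ⟨n, hn, rfl⟩ := h1
    rw [GP.mem_box] at hn
    refine ⟨∑ i, n (Fin.succ i) • v i, hgap _ fun i => ?_, ?_⟩
    · have := hn i.succ
      rwa [hL', Fin.cons_succ] at this
    · rw [hev, add_sub_cancel_right, ← zsmul_eq_mul]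
      exact H.zsmul_mem hgH _

end Pool.Agent.X164.BO
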