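import Mathlib
import Pool.Agent.X164.BO.Conv
import Pool.Agent.X164.BO.Body
import Pool.Agent.H112R2.Final
import Pool.Agent.H217R3.AK.Bsg

set_option autoImplicit false

/-! # Bohr sets in `2A - 2A` for sets of large additive energy (helper164) -/

namespace Pool.Agent.X164.BO

open Finset Pool.Agent.TH858
open scoped Pointwise

lemma subgroup_gen' {N : ℕ} [NeZero N] (H : AddSubgroup (ZMod N)) :
    ∃ g : ZMod N, g ∈ H ∧ ∀ x ∈ H, ∃ j : ℤ, |j| ≤ Nat.card H ∧ x = (j : ZMod N) * g := by
  classical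
  obtain ⟨g, hg⟩ := (inferInstance : IsAddCyclic H).exists_generator
  refine ⟨g.1, g.2, fun x hx => ?_⟩
  obtain ⟨j, hj⟩ := AddSubgroup.mem_zmultiples_iff.mp (hg ⟨x, hx⟩)
  have hc0 : 0 < Nat.card H := Nat.card_pos
  have hc : (0 : ℤ) < Nat.card H := by exact_mod_cast hc0
  refine ⟨j % (Nat.card H : ℤ), ?_, ?_⟩
  · rw [abs_of_nonneg (Int.emod_nonneg _ hc.ne')]
    exact (Int.emod_lt_of_pos _ hc).le
  · have h1 : x = j • (g : ZMod N) := by
      have h2 := congrArg (fun y : H => (y : ZMod N)) hj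
      simpa using h2.symm
    have h2 : (j % (Nat.card H : ℤ)) • (g : ZMod N) = j • (g : ZMod N) := by
      have h3 : Nat.card H • g = 0 := card_nsmul_eq_zero'
      have h4 : (Nat.card H : ℤ) • (g : ZMod N) = 0 := by
        have h5 : ((Nat.card H • g : H) : ZMod N) = ((0 : H) : ZMod N) := by rw [h3]
        rw [AddSubgroup.coe_nsmul, AddSubgroup.coe_zero] at h5
        rw [natCast_zsmul]
        exact h5
      have h5 := Int.emod_add_mul_ediv j (Nat.card H : ℤ)
      conv_rhs => rw [← h5, add_zsmul, mul_comm, mul_zsmul, h4, zsmul_zero, add_zero]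
    rw [h1, ← h2, zsmul_eq_mul]

/-- Sets of small doubling are dense on a box progression, in the sense of `dense_improper`. -/
theorem small_doubling {N : ℕ} [NeZero N] (B : Finset (ZMod N)) (hB : B.Nonempty) {K : ℝ}
    (hK : ((B + B).card : ℝ) ≤ K * B.card) :
    ∃ (k : ℕ) (a : Fin k → ZMod N) (L : Fin k → ℕ) (t : ZMod N) (D : ℝ), 1 ≤ D ∧
      Real.log D ≤ 2 + 22000 * (Real.log (2 * K) * (1 + Real.log (1 + Real.log (2 * K)))) ∧
      (k : ℝ) ≤ 300 * Real.log (2 * K) + 1 ∧
      ((GP.box L).card : ℝ) ≤ D * (((GP.box L).filter fun n => t + GP.ev a n ∈ B).card : ℝ) ∧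
      (B.card : ℝ) ≤ D * ((GP.XX a L).card : ℝ) := by
  classical
  have hBr : (0 : ℝ) < B.card := by exact_mod_cast hB.card_pos
  have hK1 : 1 ≤ K := by
    have h1 : (B.card : ℝ) ≤ (B + B).card := by
      exact_mod_cast Finset.card_le_card_add_right hB
    nlinarith
  obtain ⟨X, hX⟩ : ∃ X : ℝ, X = Real.log (2 * K) := ⟨_, rfl⟩
  have hlog2 := Real.log_two_gt_d9
  have hX0 : Real.log 2 ≤ X := by
    rw [hX]
    exact Real.log_le_log (by norm_num) (by linarith)
  have hXpos : 0 < X := by linarith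
  have hY0 : 0 ≤ Real.log (1 + X) := Real.log_nonneg (by linarith)
  obtain ⟨d, Bd, ψ, H, T, hd, hBd, -, hvol, hT, hcov⟩ := H112.near_pfr hB hK
  rw [← hX] at hd hT ⊢
  obtain ⟨S, hS, hSfin⟩ := body_seminorm Bd hBd.1 hBd.2.1 hBd.2.2.1 hBd.2.2.2
  obtain ⟨k, v, L, F, hkd, hgap, hcovF, -, hlin, hF⟩ := cover_box S (r := 1) zero_le_one (hSfin _)
  obtain ⟨g, hgH, hgen⟩ := subgroup_gen' H
  set a : Fin (k + 1) → ZMod N := Fin.cons g (fun i => ψ (v i)) with ha
  set L' : Fin (k + 1) → ℕ := Fin.cons (Nat.card H) L with hL'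
  have hev : ∀ n : Fin (k + 1) → ℤ, GP.ev a n = (n 0 : ZMod N) * g + ψ (∑ i, n (Fin.succ i) • v i) := by
    intro n
    unfold GP.ev
    rw [Fin.sum_univ_succ, ha, Fin.cons_zero, map_sum]
    congr 1
    refine sum_congr rfl fun i _ => ?_
    rw [Fin.cons_succ, map_zsmul, zsmul_eq_mul]
  have hHpos : 0 < Nat.card H := Nat.card_pos
  -- the volume of the box
  have hLLeq : {c : Fin d → ℤ | (fun i => (c i : ℝ)) ∈ Bd} = H112.LL S 1 := by
    ext c
    exact hS _
  have hbox : (GP.box L').card ≤ 3 * B.card := by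
    have h1 : (GP.box L').card = (2 * Nat.card H + 1) * (GP.box L).card := by
      rw [GP.card_box, GP.card_box, Fin.prod_univ_succ, hL']
      simp
    have h2 : (GP.box L).card ≤ (H112.LL S 1).ncard := by
      have hinj : Function.Injective (fun n : Fin k → ℤ => ∑ i, n i • v i) := by
        intro n n' hnn
        have h0 : ∑ i, (n i - n' i) • v i = 0 := by
          simp only [sub_smul, Finset.sum_sub_distrib]
          exact sub_eq_zero.mpr hnn
        have := Fintype.linearIndependent_iff.1 hlin (fun i => n i - n' i) h0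
        funext i
        exact sub_eq_zero.1 (this i)
      have h3 : ((fun n : Fin k → ℤ => ∑ i, n i • v i) '' (GP.box L : Set (Fin k → ℤ))) ⊆
          H112.LL S 1 := by
        rintro _ ⟨n, hn, rfl⟩
        exact hgap n ((GP.mem_box L n).mp hn)
      have h4 := Set.ncard_le_ncard h3 (hSfin 1)
      rw [Set.ncard_image_of_injective _ hinj, Set.ncard_coe_finset] at h4
      exact h4
    rw [hLLeq] at hvol
    rw [h1]
    calc (2 * Nat.card H + 1) * (GP.box L).card ≤ (3 * Nat.card H) * (H112.LL S 1).ncard :=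
          Nat.mul_le_mul (by omega) h2
      _ = 3 * ((H112.LL S 1).ncard * Nat.card H) := by ring
      _ ≤ _ := Nat.mul_le_mul_left _ hvol
  -- pigeonhole
  have hcov2 : ∀ b ∈ B, ∃ t ∈ (T ×ˢ F).image (fun p => p.1 + ψ p.2), b - t ∈ GP.XX a L' := by
    intro b hb
    obtain ⟨t, ht, c, hc, h, hh, rfl⟩ := hcov b hb
    obtain ⟨f, hf, n, hn, rfl⟩ := hcovF c ((hS _).mp hc)
    obtain ⟨j, hj, rfl⟩ := hgen h hh
    refine ⟨t + ψ f, mem_image.mpr ⟨(t, f), mem_product.mpr ⟨ht, hf⟩, rfl⟩, ?_⟩
    unfold GP.XX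
    rw [mem_image]
    refine ⟨(Fin.cons j n : Fin (k + 1) → ℤ), ?_, ?_⟩
    · rw [GP.mem_box]
      intro i
      refine Fin.cases ?_ (fun i => ?_) i
      · rw [Fin.cons_zero, hL', Fin.cons_zero]; exact hj
      · rw [Fin.cons_succ, hL', Fin.cons_succ]; exact hn i
    · rw [hev, Fin.cons_zero]
      simp only [Fin.cons_succ]
      rw [map_add]
      ring
  have hpig : ∃ t ∈ (T ×ˢ F).image (fun p => p.1 + ψ p.2),
      B.card ≤ ((T ×ˢ F).image (fun p => p.1 + ψ p.2)).card *
        (B.filter fun b => b - t ∈ GP.XX a L').card := by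
    by_contra hcon
    push Not at hcon
    have h1 : B ⊆ ((T ×ˢ F).image (fun p => p.1 + ψ p.2)).biUnion
        fun t => B.filter fun b => b - t ∈ GP.XX a L' := by
      intro b hb
      obtain ⟨t, ht, hbt⟩ := hcov2 b hb
      rw [mem_biUnion]
      exact ⟨t, ht, mem_filter.mpr ⟨hb, hbt⟩⟩
    obtain ⟨b₀, hb₀⟩ := hB
    obtain ⟨t₀, ht₀, -⟩ := hcov2 b₀ hb₀
    obtain ⟨t₁, ht₁, hmax⟩ := exists_max_image ((T ×ˢ F).image (fun p => p.1 + ψ p.2))
      (fun t => (B.filter fun b => b - t ∈ GP.XX a L').card) ⟨t₀, ht₀⟩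
    have h2 : B.card ≤ ((T ×ˢ F).image (fun p => p.1 + ψ p.2)).card *
        (B.filter fun b => b - t₁ ∈ GP.XX a L').card := by
      calc B.card ≤ _ := card_le_card h1
        _ ≤ ∑ t ∈ (T ×ˢ F).image (fun p => p.1 + ψ p.2), (B.filter fun b => b - t ∈ GP.XX a L').card :=
            card_biUnion_le
        _ ≤ ∑ t ∈ (T ×ˢ F).image (fun p => p.1 + ψ p.2),
              (B.filter fun b => b - t₁ ∈ GP.XX a L').card := sum_le_sum fun t ht => hmax t ht
        _ = _ := by rw [sum_const, smul_eq_mul]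
    exact absurd h2 (not_le.mpr (hcon t₁ ht₁))
  obtain ⟨t, -, ht⟩ := hpig
  have hTF : (((T ×ˢ F).image (fun p => p.1 + ψ p.2)).card : ℝ) ≤ (T.card : ℝ) * F.card := by
    have h1 : ((T ×ˢ F).image (fun p => p.1 + ψ p.2)).card ≤ T.card * F.card :=
      card_image_le.trans (card_product _ _).le
    exact_mod_cast h1
  -- the constant
  obtain ⟨E, hE⟩ : ∃ E : ℝ, E = (2 * K) ^ (13000 * (1 + Real.log (1 + X))) *
      ((4 * (d : ℝ) + 1) ^ d * (12 * (d : ℝ) ^ 3) ^ d) := ⟨_, rfl⟩
  have hE1 : 1 ≤ E := by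
    rw [hE]
    have h1 : 1 ≤ (2 * K) ^ (13000 * (1 + Real.log (1 + X))) :=
      Real.one_le_rpow (by linarith) (by positivity)
    have h2 : 1 ≤ (4 * (d : ℝ) + 1) ^ d * (12 * (d : ℝ) ^ 3) ^ d := by
      rcases Nat.eq_zero_or_pos d with h | h
      · subst h; simp
      · have h3 : (1 : ℝ) ≤ d := by exact_mod_cast h
        have h4 : (1 : ℝ) ≤ (d : ℝ) ^ 3 := one_le_pow₀ h3
        have h5 : 1 ≤ (4 * (d : ℝ) + 1) ^ d := one_le_pow₀ (by linarith)
        have h6 : 1 ≤ (12 * (d : ℝ) ^ 3) ^ d := one_le_pow₀ (by linarith)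
        nlinarith
    nlinarith
  have hTFE : (((T ×ˢ F).image (fun p => p.1 + ψ p.2)).card : ℝ) ≤ E := by
    refine hTF.trans ?_
    rw [hE]
    exact mul_le_mul hT hF (Nat.cast_nonneg _) (Real.rpow_nonneg (by linarith) _)
  have hBE : (B.card : ℝ) ≤ E * ((B.filter fun b => b - t ∈ GP.XX a L').card : ℝ) := by
    have h1 : (B.card : ℝ) ≤ (((T ×ˢ F).image (fun p => p.1 + ψ p.2)).card : ℝ) *
        ((B.filter fun b => b - t ∈ GP.XX a L').card : ℝ) := by exact_mod_cast ht
    refine h1.trans ?_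
    gcongr
  have hfil : (B.filter fun b => b - t ∈ GP.XX a L').card ≤
      ((GP.box L').filter fun n => t + GP.ev a n ∈ B).card := by
    refine card_le_card_of_surjOn (fun n => t + GP.ev a n) ?_
    intro b hb
    rw [mem_coe, mem_filter] at hb
    have h1 := hb.2
    unfold GP.XX at h1
    rw [mem_image] at h1
    obtain ⟨n, hn, hnb⟩ := h1
    have h2 : t + GP.ev a n = b := by rw [hnb]; ring
    refine ⟨n, ?_, h2⟩
    rw [mem_coe, mem_filter, h2]
    exact ⟨hn, hb.1⟩
  have hfil2 : (B.filter fun b => b - t ∈ GP.XX a L').card ≤ (GP.XX a L').card := by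
    refine card_le_card_of_injOn (fun b => b - t) (fun b hb => ?_) fun b _ b' _ h => sub_left_injective h
    rw [mem_coe, mem_filter] at hb
    exact hb.2
  refine ⟨k + 1, a, L', t, 3 * E, by linarith, ?_, ?_, ?_, ?_⟩
  · -- the size of the constant
    have hd0 : (0 : ℝ) ≤ d := Nat.cast_nonneg d
    have hE0 : E ≠ 0 := by linarith
    rw [Real.log_mul (by norm_num) hE0]
    have hl3 : Real.log 3 ≤ 2 := by
      have := Real.log_le_sub_one_of_pos (show (0 : ℝ) < 3 by norm_num)
      linarith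
    have hlE : Real.log E ≤ 22000 * (X * (1 + Real.log (1 + X))) := by
      have h2K : (0 : ℝ) < (2 * K) ^ (13000 * (1 + Real.log (1 + X))) :=
        Real.rpow_pos_of_pos (by linarith) _
      have h1 : Real.log ((2 * K) ^ (13000 * (1 + Real.log (1 + X)))) =
          13000 * (X * (1 + Real.log (1 + X))) := by
        rw [Real.log_rpow (by linarith), ← hX]
        ring
      rcases Nat.eq_zero_or_pos d with h | h
      · rw [hE, h]
        simp only [pow_zero, mul_one]
        rw [h1]
        have : 0 ≤ X * (1 + Real.log (1 + X)) := by positivity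
        linarith
      · have hd1 : (1 : ℝ) ≤ d := by exact_mod_cast h
        rw [hE, Real.log_mul h2K.ne' (by positivity), h1, ← mul_pow, Real.log_pow]
        have h2 : Real.log ((4 * (d : ℝ) + 1) * (12 * (d : ℝ) ^ 3)) ≤ 30 * (1 + Real.log (1 + X)) := by
          have e1 : (4 * (d : ℝ) + 1) * (12 * (d : ℝ) ^ 3) ≤ 60 * (d : ℝ) ^ 4 := by
            have : 4 * (d : ℝ) + 1 ≤ 5 * d := by linarith
            calc (4 * (d : ℝ) + 1) * (12 * (d : ℝ) ^ 3) ≤ 5 * d * (12 * (d : ℝ) ^ 3) := by gcongr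
              _ = _ := by ring
          have e2 := Real.log_le_log (by positivity) e1
          have e3 : Real.log (60 * (d : ℝ) ^ 4) = Real.log 60 + 4 * Real.log d := by
            rw [Real.log_mul (by norm_num) (by positivity), Real.log_pow]
            push_cast
            ring
          have e4 : Real.log 60 ≤ 5 := by
            rw [Real.log_le_iff_le_exp (by norm_num)]
            have e5 : Real.exp 5 = (Real.exp 1) ^ 5 := by
              rw [← Real.exp_nat_mul]; norm_num
            rw [e5]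
            have := Real.exp_one_gt_d9
            have h8 : (2.7 : ℝ) ^ 5 ≤ (Real.exp 1) ^ 5 := pow_le_pow_left₀ (by norm_num) (by linarith) 5
            have h9 : (60 : ℝ) ≤ (2.7 : ℝ) ^ 5 := by norm_num
            linarith
          have e5 : Real.log d ≤ 6 + Real.log (1 + X) := by
            have e6 : (d : ℝ) ≤ 300 * (1 + X) := by linarith
            have e7 := Real.log_le_log (by linarith) e6
            rw [Real.log_mul (by norm_num) (by positivity)] at e7
            have e8 : Real.log 300 ≤ 6 := by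
              rw [Real.log_le_iff_le_exp (by norm_num)]
              have e5 : Real.exp 6 = (Real.exp 1) ^ 6 := by
                rw [← Real.exp_nat_mul]; norm_num
              rw [e5]
              have := Real.exp_one_gt_d9
              have h8 : (2.7 : ℝ) ^ 6 ≤ (Real.exp 1) ^ 6 := pow_le_pow_left₀ (by norm_num) (by linarith) 6
              have h9 : (300 : ℝ) ≤ (2.7 : ℝ) ^ 6 := by norm_num
              linarith
            linarith
          linarith
        have h3 : (d : ℝ) * Real.log ((4 * (d : ℝ) + 1) * (12 * (d : ℝ) ^ 3)) ≤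
            300 * X * (30 * (1 + Real.log (1 + X))) := by
          calc (d : ℝ) * Real.log ((4 * (d : ℝ) + 1) * (12 * (d : ℝ) ^ 3)) ≤
                d * (30 * (1 + Real.log (1 + X))) := mul_le_mul_of_nonneg_left h2 hd0
            _ ≤ _ := by
                apply mul_le_mul_of_nonneg_right hd
                positivity
        have h4 : 300 * X * (30 * (1 + Real.log (1 + X))) = 9000 * (X * (1 + Real.log (1 + X))) := by
          ring
        rw [h4] at h3
        linarith
    linarith
  · have h1 : (k : ℝ) ≤ d := by exact_mod_cast hkd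
    push_cast
    linarith
  · calc ((GP.box L').card : ℝ) ≤ 3 * B.card := by exact_mod_cast hbox
      _ ≤ 3 * (E * ((B.filter fun b => b - t ∈ GP.XX a L').card : ℝ)) := by gcongr
      _ ≤ 3 * (E * (((GP.box L').filter fun n => t + GP.ev a n ∈ B).card : ℝ)) := by
          have : ((B.filter fun b => b - t ∈ GP.XX a L').card : ℝ) ≤
            (((GP.box L').filter fun n => t + GP.ev a n ∈ B).card : ℝ) := by exact_mod_cast hfil
          gcongr
      _ = _ := by ring
  · have h1 : ((B.filter fun b => b - t ∈ GP.XX a L').card : ℝ) ≤ (GP.XX a L').card := by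
      exact_mod_cast hfil2
    have h2 : 0 ≤ E * ((GP.XX a L').card : ℝ) := by positivity
    calc (B.card : ℝ) ≤ E * ((B.filter fun b => b - t ∈ GP.XX a L').card : ℝ) := hBE
      _ ≤ E * (GP.XX a L').card := by gcongr
      _ ≤ 3 * E * (GP.XX a L').card := by linarith

end Pool.Agent.X164.BO
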