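import Mathlib
import Pool.Agent.X164.BO.En

set_option autoImplicit false

/-! # Bohr sets in `2A - 2A` for sets of large additive energy, II (helper164) -/

namespace Pool.Agent.X164.BO

open Finset Pool.Agent.TH858
open scoped Pointwise

lemma sum_from_diff {G : Type*} [AddCommGroup G] [DecidableEq G] (B : Finset G) (hB : B.Nonempty)
    {M : ℝ} (h : ((B - B).card : ℝ) ≤ M * B.card) : ((B + B).card : ℝ) ≤ M ^ 2 * B.card := by
  have h1 := Finset.pluennecke_ruzsa_inequality_nsmul_sub hB B 2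
  rw [two_nsmul] at h1
  have h2 : (((B + B).card : ℚ≥0) : ℝ) ≤
      (((((B - B).card : ℚ≥0) / (B.card : ℚ≥0)) ^ 2 * (B.card : ℚ≥0) : ℚ≥0) : ℝ) := by
    exact_mod_cast h1
  push_cast at h2
  have hBr : (0 : ℝ) < B.card := by exact_mod_cast hB.card_pos
  have h3 : ((B - B).card : ℝ) / B.card ≤ M := by
    rw [div_le_iff₀ hBr]
    exact h
  calc ((B + B).card : ℝ) ≤ (((B - B).card : ℝ) / B.card) ^ 2 * B.card := h2
    _ ≤ M ^ 2 * B.card := by gcongr

theorem energy {N : ℕ} [NeZero N] (A : Finset (ZMod N)) (hA : A.Nonempty) (K : ℝ) (hK : 1 ≤ K)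
    (hE : (A.card : ℝ) ^ 3 ≤ K * (A.addEnergy A : ℕ)) (R : ℝ)
    (hR : Real.exp (10 ^ 7 * ((1 + Real.log K) * (1 + Real.log (1 + Real.log K)))) ≤ R) :
    ∃ Γ : Finset (ZMod N), (Γ.card : ℝ) ≤ 5 * (Real.log ((N : ℝ) / A.card) / Real.log R) +
        Real.exp (10 ^ 7 * ((1 + Real.log K) * (1 + Real.log (1 + Real.log K)))) ∧
      ∀ x : ZMod N, (∀ g ∈ Γ, CB.nn (g * x) ≤ 1 / (8 * R)) →
        ∃ a₁ ∈ A, ∃ a₂ ∈ A, ∃ a₃ ∈ A, ∃ a₄ ∈ A, x = a₁ + a₂ - a₃ - a₄ := by
  classical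
  obtain ⟨κ, hκ⟩ : ∃ κ : ℝ, κ = Real.log K := ⟨_, rfl⟩
  rw [← hκ] at hR ⊢
  have hκ0 : 0 ≤ κ := by rw [hκ]; exact Real.log_nonneg hK
  have hl0 : 0 ≤ Real.log (1 + κ) := Real.log_nonneg (by linarith)
  obtain ⟨Y, hY⟩ : ∃ Y : ℝ, Y = (1 + κ) * (1 + Real.log (1 + κ)) := ⟨_, rfl⟩
  rw [← hY] at hR ⊢
  have hY1 : 1 + κ ≤ Y := by rw [hY]; nlinarith
  have hlog2 := Real.log_two_lt_d9
  have hlog2' := Real.log_two_gt_d9
  obtain ⟨B, hBA, hB, hAB, hBB⟩ := Pool.Agent.H217R3.AK.bsg A hA K (by linarith) hE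
  have hsum := sum_from_diff B hB hBB
  obtain ⟨K', hK'⟩ : ∃ K' : ℝ, K' = (2 ^ 22 * K ^ 10) ^ 2 := ⟨_, rfl⟩
  rw [← hK'] at hsum
  obtain ⟨X, hX⟩ : ∃ X : ℝ, X = Real.log (2 * K') := ⟨_, rfl⟩
  have hXe : X = 45 * Real.log 2 + 20 * κ := by
    rw [hX, hK', hκ]
    have hK0 : (0 : ℝ) < K := by linarith
    rw [Real.log_mul (by norm_num) (by positivity), Real.log_pow, Real.log_mul (by positivity)
      (by positivity), Real.log_pow, Real.log_pow]
    push_cast
    ring
  have hX32 : X ≤ 32 * (1 + κ) := by rw [hXe]; linarith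
  have hX0 : 0 < X := by rw [hXe]; linarith
  obtain ⟨k, a, L, t, D, hD1, hD2, hk, hbox, hBX⟩ := small_doubling B hB hsum
  rw [← hX] at hD2 hk
  have hlX : 1 + Real.log (1 + X) ≤ 5 * (1 + Real.log (1 + κ)) := by
    have e1 : 1 + X ≤ 33 * (1 + κ) := by linarith
    have e2 := Real.log_le_log (by linarith) e1
    rw [Real.log_mul (by norm_num) (by linarith)] at e2
    have e3 : Real.log 33 ≤ 4 := by
      rw [Real.log_le_iff_le_exp (by norm_num)]
      have e5 : Real.exp 4 = (Real.exp 1) ^ 4 := by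
        rw [← Real.exp_nat_mul]; norm_num
      rw [e5]
      have := Real.exp_one_gt_d9
      have h8 : (2.7 : ℝ) ^ 4 ≤ (Real.exp 1) ^ 4 := pow_le_pow_left₀ (by norm_num) (by linarith) 4
      have h9 : (33 : ℝ) ≤ (2.7 : ℝ) ^ 4 := by norm_num
      linarith
    linarith
  have hXY : X * (1 + Real.log (1 + X)) ≤ 160 * Y := by
    have e0 : 0 ≤ 1 + Real.log (1 + X) := by
      have := Real.log_nonneg (show 1 ≤ 1 + X by linarith)
      linarith
    calc X * (1 + Real.log (1 + X)) ≤ (32 * (1 + κ)) * (5 * (1 + Real.log (1 + κ))) :=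
          mul_le_mul hX32 hlX e0 (by linarith)
      _ = 160 * Y := by rw [hY]; ring
  have hlD : Real.log D ≤ 2 + 3520000 * Y := by linarith
  have hD0 : 0 < D := by linarith
  have hk' : (k : ℝ) ≤ 9601 * Y := by linarith
  -- everything is bounded by `exp (10 ^ 7 Y)`
  obtain ⟨u, hu⟩ : ∃ u : ℝ, u = Real.exp (7040000 * Y) := ⟨_, rfl⟩
  have hu1 : 1 + 7040000 * Y ≤ u := by
    rw [hu]
    have := Real.add_one_le_exp (7040000 * Y)
    linarith
  have hDu : D ^ 2 ≤ 55 * u := by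
    have e1 : D ^ 2 = Real.exp (2 * Real.log D) := by
      rw [show (2 : ℝ) = ((2 : ℕ) : ℝ) by norm_num, Real.exp_nat_mul, Real.exp_log hD0]
    rw [e1]
    have e2 : Real.exp (2 * Real.log D) ≤ Real.exp (4 + 7040000 * Y) :=
      Real.exp_le_exp.mpr (by linarith)
    refine e2.trans ?_
    rw [Real.exp_add, ← hu]
    have e3 : Real.exp 4 ≤ 55 := by
      have e5 : Real.exp 4 = (Real.exp 1) ^ 4 := by
        rw [← Real.exp_nat_mul]; norm_num
      rw [e5]
      have := Real.exp_one_lt_d9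
      have h8 : (Real.exp 1) ^ 4 ≤ (2.7183 : ℝ) ^ 4 :=
        pow_le_pow_left₀ (Real.exp_pos _).le (by linarith) 4
      have h9 : (2.7183 : ℝ) ^ 4 ≤ 55 := by norm_num
      linarith
    have hu0 : 0 < u := by linarith
    gcongr
  have hbig : 1763 * u ≤ Real.exp (10 ^ 7 * Y) := by
    have e1 : Real.exp (10 ^ 7 * Y) = Real.exp (2960000 * Y) * u := by
      rw [hu, ← Real.exp_add]
      congr 1
      ring
    rw [e1]
    have e2 : 1763 ≤ Real.exp (2960000 * Y) := by
      have := Real.add_one_le_exp (2960000 * Y)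
      linarith
    have hu0 : 0 < u := by linarith
    gcongr
  have hu0 : 0 < u := by linarith
  have hDle : D ≤ D ^ 2 := by nlinarith
  have hRu : 1763 * u ≤ R := hbig.trans hR
  have hRD : D ≤ R := by linarith
  have hRk : (k : ℝ) + 3 ≤ R := by linarith
  have hR3 : Real.exp 1 ≤ R := by
    have := Real.exp_one_lt_d9
    linarith
  have hlogR : 1 ≤ Real.log R := by
    rw [Real.le_log_iff_exp_le (by linarith)]
    exact hR3
  obtain ⟨Γ, hΓ1, hΓ2⟩ := dense_improper a L R (1 / D) hRk (by positivity) (by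
    rw [one_div, ← div_eq_inv_mul, le_div_iff₀ hD0, one_mul]
    exact hRD) B t (by
    rw [one_div, ← div_eq_inv_mul, div_le_iff₀ hD0]
    linarith)
  refine ⟨Γ, ?_, fun x hx => ?_⟩
  · have hNr : (0 : ℝ) < N := by exact_mod_cast NeZero.pos N
    have hAr : (0 : ℝ) < A.card := by exact_mod_cast hA.card_pos
    have hBr : (0 : ℝ) < B.card := by exact_mod_cast hB.card_pos
    have hXr : (0 : ℝ) < (GP.XX a L).card := by
      by_contra h0
      push Not at h0
      have h1 : ((GP.XX a L).card : ℝ) = 0 := le_antisymm h0 (Nat.cast_nonneg _)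
      rw [h1, mul_zero] at hBX
      linarith
    have hl1 : Real.log (N / (GP.XX a L).card) ≤ Real.log (N / A.card) + Real.log (8 * K * D) := by
      rw [← Real.log_mul (by positivity) (by positivity)]
      apply Real.log_le_log (by positivity)
      rw [div_mul_eq_mul_div, div_le_div_iff₀ hXr hAr]
      have e1 : (A.card : ℝ) ≤ 8 * K * D * (GP.XX a L).card := by
        calc (A.card : ℝ) ≤ 8 * K * B.card := hAB
          _ ≤ 8 * K * (D * (GP.XX a L).card) := by gcongr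
          _ = _ := by ring
      calc (N : ℝ) * A.card ≤ N * (8 * K * D * (GP.XX a L).card) := by gcongr
        _ = _ := by ring
    have hl2 : Real.log (8 * K * D) ≤ 3 + Y + (2 + 3520000 * Y) := by
      rw [Real.log_mul (by positivity) (by positivity), Real.log_mul (by norm_num) (by positivity),
        ← hκ]
      have e1 : Real.log 8 ≤ 3 := by
        rw [show (8 : ℝ) = 2 ^ 3 by norm_num, Real.log_pow]
        push_cast
        linarith
      linarith
    have hl3 : Real.log (N / (GP.XX a L).card) / Real.log R ≤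
        Real.log (N / A.card) / Real.log R + (3 + Y + (2 + 3520000 * Y)) := by
      have hlogR0 : 0 < Real.log R := by linarith
      rw [div_le_iff₀ hlogR0, add_mul, div_mul_cancel₀ _ hlogR0.ne']
      have e1 : (3 + Y + (2 + 3520000 * Y)) * 1 ≤ (3 + Y + (2 + 3520000 * Y)) * Real.log R :=
        mul_le_mul_of_nonneg_left hlogR (by linarith)
      linarith
    have e2 : (32 : ℝ) / (1 / D) ^ 2 = 32 * D ^ 2 := by
      field_simp
    rw [e2] at hΓ1
    obtain ⟨p, hp⟩ : ∃ p : ℝ, p = Real.log (N / (GP.XX a L).card) / Real.log R := ⟨_, rfl⟩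
    obtain ⟨q, hq⟩ : ∃ q : ℝ, q = Real.log (N / A.card) / Real.log R := ⟨_, rfl⟩
    rw [← hp] at hΓ1 hl3
    rw [← hq] at hl3 ⊢
    have e3 : (1 : ℝ) ≤ Y := by linarith
    have e4 : (Γ.card : ℝ) ≤ 300 * (9601 * Y) + 306 + 5 * (q + (3 + Y + (2 + 3520000 * Y))) +
        32 * (55 * u) := by linarith
    refine e4.trans ?_
    refine le_trans ?_ (add_le_add_right hbig (5 * q))
    linarith
  · obtain ⟨a₁, h₁, a₂, h₂, a₃, h₃, a₄, h₄, e⟩ := hΓ2 x hx
    exact ⟨a₁, hBA h₁, a₂, hBA h₂, a₃, hBA h₃, a₄, hBA h₄, e⟩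

end Pool.Agent.X164.BO
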