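import Mathlib
import Pool.Agent.X164.BO.Conv

set_option autoImplicit false

/-! # Sets containing a random point of a coset progression with positive probability (helper164) -/

namespace Pool.Agent.X164.BO

open Finset Pool.Agent.TH858

lemma subgroup_nat {N : ℕ} [NeZero N] (H : AddSubgroup (ZMod N)) :
    ∃ g : ZMod N, g ∈ H ∧ ∀ x ∈ H, ∃ j : ℤ, |j| ≤ Nat.card H ∧ x = (j : ZMod N) * g := by
  classical
  obtain ⟨g, hg⟩ := (inferInstance : IsAddCyclic H).exists_generator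
  refine ⟨g.1, g.2, fun x hx => ?_⟩
  obtain ⟨j, hj⟩ := AddSubgroup.mem_zmultiples_iff.mp (hg ⟨x, hx⟩)
  have hc0 : 0 < Nat.card H := Nat.card_pos
  have hc : (0 : ℤ) < Nat.card H := by exact_mod_cast hc0
  refine ⟨j % (Nat.card H : ℤ), ?_, ?_⟩
  · rw [abs_of_nonneg (Int.emod_nonneg _ hc.ne')]
    exact (Int.emod_lt_of_pos _ hc).le
  · have h1 : x = j • (g : ZMod N) := by
      have h2 := congrArg (fun y : H => (y : ZMod N)) hj
      simpa using h2.symm
    have h2 : (j % (Nat.card H : ℤ)) • (g : ZMod N) = j • (g : ZMod N) := by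
      have h3 : Nat.card H • g = 0 := card_nsmul_eq_zero'
      have h4 : (Nat.card H : ℤ) • (g : ZMod N) = 0 := by
        have h5 : ((Nat.card H • g : H) : ZMod N) = ((0 : H) : ZMod N) := by rw [h3]
        rw [AddSubgroup.coe_nsmul, AddSubgroup.coe_zero] at h5
        rw [natCast_zsmul]
        exact h5
      have h5 := Int.emod_add_mul_ediv j (Nat.card H : ℤ)
      conv_rhs => rw [← h5, add_zsmul, mul_comm, mul_zsmul, h4, zsmul_zero, add_zero]
    rw [h1, ← h2, zsmul_eq_mul]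

/-- A set that contains a random point `t + h + n_1 a_1 + … + n_d a_d` of an arbitrary coset
progression with probability at least `δ`. -/
theorem random_points {N : ℕ} [NeZero N] (H : AddSubgroup (ZMod N)) {d : ℕ} (a : Fin d → ZMod N)
    (L : Fin d → ℕ) (R δ : ℝ) (hR : (d : ℝ) + 4 ≤ R) (hδ : 0 < δ) (hδR : 3 ≤ δ * R)
    (A : Finset (ZMod N)) (t : ZMod N) (U : Finset (ZMod N × (Fin d → ℤ)))
    (hU : ∀ p ∈ U, p.1 ∈ H ∧ p.2 ∈ GP.box L ∧ t + p.1 + GP.ev a p.2 ∈ A)
    (hA : δ * (Nat.card H * (GP.box L).card) ≤ (U.card : ℝ))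
    (P : Finset (ZMod N)) (hP0 : P.Nonempty)
    (hP : ∀ x ∈ P, ∃ y ∈ H, ∃ n ∈ GP.box L, x = y + GP.ev a n) :
    ∃ Γ : Finset (ZMod N), (Γ.card : ℝ) ≤ 300 * d + 606 +
        5 * (Real.log (N / P.card) / Real.log R) + 288 / δ ^ 2 ∧
      ∀ x : ZMod N, (∀ g ∈ Γ, CB.nn (g * x) ≤ 1 / (8 * R)) →
        ∃ a₁ ∈ A, ∃ a₂ ∈ A, ∃ a₃ ∈ A, ∃ a₄ ∈ A, x = a₁ + a₂ - a₃ - a₄ := by
  classical
  obtain ⟨g, hgH, hgen⟩ := subgroup_nat H
  set a' : Fin (d + 1) → ZMod N := Fin.cons g a with ha'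
  set L' : Fin (d + 1) → ℕ := Fin.cons (Nat.card H) L with hL'
  have hev : ∀ n : Fin (d + 1) → ℤ, GP.ev a' n = (n 0 : ZMod N) * g + GP.ev a (fun i => n (Fin.succ i)) := by
    intro n
    unfold GP.ev
    rw [Fin.sum_univ_succ, ha', Fin.cons_zero]
    congr 1
  have hHpos : 0 < Nat.card H := Nat.card_pos
  have hbox : (GP.box L').card = (2 * Nat.card H + 1) * (GP.box L).card := by
    rw [GP.card_box, GP.card_box, Fin.prod_univ_succ, hL']
    simp
  have hmem : ∀ (j : ℤ) (n : Fin d → ℤ), |j| ≤ Nat.card H → n ∈ GP.box L →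
      (Fin.cons j n : Fin (d + 1) → ℤ) ∈ GP.box L' := by
    intro j n hj hn
    rw [GP.mem_box] at hn ⊢
    intro i
    refine Fin.cases ?_ (fun i => ?_) i
    · rw [Fin.cons_zero, hL', Fin.cons_zero]; exact hj
    · rw [Fin.cons_succ, hL', Fin.cons_succ]; exact hn i
  have hch : ∀ y : ZMod N, ∃ j : ℤ, y ∈ H → (|j| ≤ Nat.card H ∧ y = (j : ZMod N) * g) := by
    intro y
    by_cases hy : y ∈ H
    · obtain ⟨j, h1, h2⟩ := hgen y hy
      exact ⟨j, fun _ => ⟨h1, h2⟩⟩
    · exact ⟨0, fun h => absurd h hy⟩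
  choose jj hjj using hch
  have hUc : U.card ≤ ((GP.box L').filter fun n => t + GP.ev a' n ∈ A).card := by
    refine card_le_card_of_injOn (fun p => (Fin.cons (jj p.1) p.2 : Fin (d + 1) → ℤ)) ?_ ?_
    · intro p hp
      obtain ⟨h1, h2, h3⟩ := hU p hp
      obtain ⟨h4, h5⟩ := hjj p.1 h1
      rw [mem_coe, mem_filter]
      refine ⟨hmem _ _ h4 h2, ?_⟩
      have h6 := hev (Fin.cons (jj p.1) p.2 : Fin (d + 1) → ℤ)
      rw [Fin.cons_zero, ← h5] at h6
      simp only [Fin.cons_succ] at h6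
      change t + GP.ev a' (Fin.cons (jj p.1) p.2 : Fin (d + 1) → ℤ) ∈ A
      rw [h6, ← add_assoc]
      exact h3
    · intro p hp p' hp' heq
      obtain ⟨h1, -, -⟩ := hU p hp
      obtain ⟨h1', -, -⟩ := hU p' hp'
      have h2 : (Fin.cons (jj p.1) p.2 : Fin (d + 1) → ℤ) = Fin.cons (jj p'.1) p'.2 := heq
      rw [Fin.cons_inj] at h2
      have h3 : p.1 = p'.1 := by
        rw [(hjj p.1 h1).2, (hjj p'.1 h1').2, h2.1]
      exact Prod.ext h3 h2.2
  have hdens : δ / 3 * ((GP.box L').card : ℝ) ≤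
      (((GP.box L').filter fun n => t + GP.ev a' n ∈ A).card : ℝ) := by
    have h1 : ((GP.box L').card : ℝ) ≤ 3 * (Nat.card H * (GP.box L).card) := by
      have h2 : (GP.box L').card ≤ 3 * (Nat.card H * (GP.box L).card) := by
        rw [hbox]
        calc (2 * Nat.card H + 1) * (GP.box L).card ≤ (3 * Nat.card H) * (GP.box L).card :=
              Nat.mul_le_mul_right _ (by omega)
          _ = _ := by ring
      exact_mod_cast h2
    calc δ / 3 * ((GP.box L').card : ℝ) ≤ δ / 3 * (3 * (Nat.card H * (GP.box L).card)) := by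
          gcongr
      _ = δ * (Nat.card H * (GP.box L).card) := by ring
      _ ≤ (U.card : ℝ) := hA
      _ ≤ _ := by exact_mod_cast hUc
  have hPX : P.card ≤ (GP.XX a' L').card := by
    refine card_le_card fun x hx => ?_
    obtain ⟨y, hy, n, hn, rfl⟩ := hP x hx
    obtain ⟨h4, h5⟩ := hjj y hy
    unfold GP.XX
    rw [mem_image]
    refine ⟨(Fin.cons (jj y) n : Fin (d + 1) → ℤ), hmem _ _ h4 hn, ?_⟩
    rw [hev, Fin.cons_zero, ← h5]
    simp only [Fin.cons_succ]
  obtain ⟨Γ, h1, h2⟩ := dense_improper a' L' R (δ / 3) (by push_cast; linarith) (by positivity)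
    (by linarith) A t hdens
  refine ⟨Γ, ?_, h2⟩
  have hR4 : 4 ≤ R := by
    have : (0 : ℝ) ≤ d := Nat.cast_nonneg d
    linarith
  have hlogR : 0 < Real.log R := Real.log_pos (by linarith)
  have hNpos : (0 : ℝ) < N := by exact_mod_cast NeZero.pos N
  have hPpos : (0 : ℝ) < P.card := by exact_mod_cast hP0.card_pos
  have hl : Real.log (N / (GP.XX a' L').card) / Real.log R ≤ Real.log (N / P.card) / Real.log R := by
    apply div_le_div_of_nonneg_right _ hlogR.le
    have hXr : (P.card : ℝ) ≤ (GP.XX a' L').card := by exact_mod_cast hPX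
    apply Real.log_le_log
    · exact div_pos hNpos (by linarith)
    · exact div_le_div_of_nonneg_left hNpos.le hPpos hXr
  have e : (32 : ℝ) / (δ / 3) ^ 2 = 288 / δ ^ 2 := by
    rw [div_pow, div_div_eq_mul_div]
    norm_num
  rw [e] at h1
  push_cast at h1
  linarith

end Pool.Agent.X164.BO
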