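import Mathlib
import Pool.Agent.X164.BO.Conv
import Pool.Agent.X164.BO.Body

set_option autoImplicit false

/-! # Bohr sets contain progressions; transfer between moduli (helper164) -/

namespace Pool.Agent.X164.BO

open Finset Pool.Agent.TH858

/-! ### Pigeonhole: Bohr sets are large -/

lemma nn_sub_le {N : ℕ} [NeZero N] (g x y : ZMod N) {δ : ℝ}
    (h : |Int.fract (((g * x).val : ℝ) / N) - Int.fract (((g * y).val : ℝ) / N)| ≤ δ) :
    CB.nn (g * (x - y)) ≤ δ := by
  have h1 := CB.nint_eq_nn (N := N) (((g * x).val : ℤ) - ((g * y).val : ℤ)) (g * (x - y)) (by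
    push_cast
    rw [ZMod.natCast_zmod_val, ZMod.natCast_zmod_val]
    ring)
  rw [← h1]
  push_cast
  rw [sub_div]
  have h2 : ((g * x).val : ℝ) / N - ((g * y).val : ℝ) / N =
      (Int.fract (((g * x).val : ℝ) / N) - Int.fract (((g * y).val : ℝ) / N)) +
        ((⌊((g * x).val : ℝ) / N⌋ - ⌊((g * y).val : ℝ) / N⌋ : ℤ) : ℝ) := by
    push_cast
    unfold Int.fract
    ring
  rw [h2, CB.nint_add_int]
  refine le_trans ?_ h
  unfold CB.nint
  have := round_le (Int.fract (((g * x).val : ℝ) / N) - Int.fract (((g * y).val : ℝ) / N)) 0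
  simpa using this

/-- A Bohr set of radius `1 / q` has at least `N / q^d` elements. -/
theorem bohr_large {N : ℕ} [NeZero N] (Γ : Finset (ZMod N)) (q : ℕ) (hq : 0 < q) :
    N ≤ q ^ Γ.card * (univ.filter fun x : ZMod N => ∀ g ∈ Γ, CB.nn (g * x) ≤ 1 / q).card := by
  classical
  have hqr : (0 : ℝ) < q := by exact_mod_cast hq
  have hfl : ∀ t : ℝ, (⌊(q : ℝ) * Int.fract t⌋₊) < q := by
    intro t
    rw [Nat.floor_lt (by positivity)]
    calc (q : ℝ) * Int.fract t < q * 1 := by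
          apply mul_lt_mul_of_pos_left (Int.fract_lt_one t) hqr
      _ = q := mul_one _
  set F : ZMod N → (Γ → Fin q) := fun x g => ⟨⌊(q : ℝ) * Int.fract (((g.1 * x).val : ℝ) / N)⌋₊, hfl _⟩ with hF
  set B := univ.filter fun x : ZMod N => ∀ g ∈ Γ, CB.nn (g * x) ≤ 1 / q with hB
  by_contra hcon
  push Not at hcon
  have hcard : (univ : Finset (Γ → Fin q)).card = q ^ Γ.card := by
    rw [card_univ, Fintype.card_fun, Fintype.card_fin, Fintype.card_coe]
  have h1 : (univ : Finset (Γ → Fin q)).card * B.card < (univ : Finset (ZMod N)).card := by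
    rw [hcard, card_univ, ZMod.card]
    exact hcon
  obtain ⟨y, -, hy⟩ := exists_lt_card_fiber_of_mul_lt_card_of_maps_to
    (f := F) (fun x _ => mem_univ (F x)) h1
  set Y := univ.filter fun x => F x = y with hY
  have hne : Y.Nonempty := card_pos.mp (by omega)
  obtain ⟨x₀, hx₀⟩ := hne
  have h2 : Y.card ≤ B.card := by
    refine card_le_card_of_injOn (fun x => x - x₀) ?_ fun x _ x' _ h => sub_left_injective h
    intro x hx
    rw [mem_coe, hY, mem_filter] at hx
    rw [hY, mem_filter] at hx₀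
    rw [mem_coe, hB, mem_filter]
    refine ⟨mem_univ _, fun g hg => ?_⟩
    apply nn_sub_le
    have h3 : F x ⟨g, hg⟩ = F x₀ ⟨g, hg⟩ := by rw [hx.2, hx₀.2]
    have h4 : ⌊(q : ℝ) * Int.fract (((g * x).val : ℝ) / N)⌋₊ =
        ⌊(q : ℝ) * Int.fract (((g * x₀).val : ℝ) / N)⌋₊ := congrArg Fin.val h3
    have h5 := Nat.floor_le (show 0 ≤ (q : ℝ) * Int.fract (((g * x).val : ℝ) / N) by positivity)
    have h6 := Nat.floor_le (show 0 ≤ (q : ℝ) * Int.fract (((g * x₀).val : ℝ) / N) by positivity)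
    have h7 := Nat.lt_floor_add_one ((q : ℝ) * Int.fract (((g * x).val : ℝ) / N))
    have h8 := Nat.lt_floor_add_one ((q : ℝ) * Int.fract (((g * x₀).val : ℝ) / N))
    rw [h4] at h5 h7
    rw [le_div_iff₀ hqr]
    have h9 : |Int.fract (((g * x).val : ℝ) / N) - Int.fract (((g * x₀).val : ℝ) / N)| * q =
        |(q : ℝ) * Int.fract (((g * x).val : ℝ) / N) - q * Int.fract (((g * x₀).val : ℝ) / N)| := by
      rw [← mul_sub, abs_mul, abs_of_pos hqr]
      ring
    rw [h9, abs_le]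
    constructor <;> linarith
  omega

/-! ### Bohr sets contain box progressions -/

/-- the linear map whose unit ball is the Bohr set -/
noncomputable def FB {N d : ℕ} (γ : Fin d → ZMod N) (ε : ℝ) :
    (Fin (d + 1) → ℝ) →ₗ[ℝ] (Fin (d + 1) → ℝ) :=
  LinearMap.pi (Fin.cons ((N : ℝ)⁻¹ • LinearMap.proj 0)
    (fun i => ε⁻¹ • ((((γ i).val : ℝ) / N) • LinearMap.proj 0 - LinearMap.proj i.succ)))

lemma FB_zero {N d : ℕ} (γ : Fin d → ZMod N) (ε : ℝ) (y : Fin (d + 1) → ℝ) :
    FB γ ε y 0 = (N : ℝ)⁻¹ * y 0 := by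
  unfold FB
  simp

lemma FB_succ {N d : ℕ} (γ : Fin d → ZMod N) (ε : ℝ) (y : Fin (d + 1) → ℝ) (i : Fin d) :
    FB γ ε y i.succ = ε⁻¹ * (((γ i).val : ℝ) / N * y 0 - y i.succ) := by
  unfold FB
  simp

theorem bohr_prog {N : ℕ} [NeZero N] (Γ : Finset (ZMod N)) (ε : ℝ) (hε : 0 < ε) :
    ∃ (k : ℕ) (a : Fin k → ZMod N) (L : Fin k → ℕ), k ≤ Γ.card + 1 ∧
      (∀ x ∈ GP.XX a L, ∀ g ∈ Γ, CB.nn (g * x) ≤ ε) ∧
      ((univ.filter fun x : ZMod N => ∀ g ∈ Γ, CB.nn (g * x) ≤ ε).card : ℝ) ≤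
        (4 * (Γ.card + 1 : ℕ) + 1) ^ (Γ.card + 1) * (12 * ((Γ.card + 1 : ℕ) : ℝ) ^ 3) ^ (Γ.card + 1) *
          (GP.XX a L).card := by
  classical
  set d := Γ.card with hd
  have hNpos : (0 : ℝ) < N := by exact_mod_cast NeZero.pos N
  set γ : Fin d → ZMod N := fun i => (Γ.equivFin.symm i).1 with hγ
  have hγ1 : ∀ i, γ i ∈ Γ := fun i => (Γ.equivFin.symm i).2
  have hγ2 : ∀ g ∈ Γ, ∃ i, γ i = g := fun g hg => ⟨Γ.equivFin ⟨g, hg⟩, by simp [hγ]⟩
  set S : Seminorm ℝ (Fin (d + 1) → ℝ) := (normSeminorm ℝ (Fin (d + 1) → ℝ)).comp (FB γ ε) with hS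
  have hS1 : ∀ (y : Fin (d + 1) → ℝ) (s : ℝ), 0 ≤ s → (S y ≤ s ↔ |y 0| ≤ s * N ∧
      ∀ i : Fin d, |((γ i).val : ℝ) / N * y 0 - y i.succ| ≤ s * ε) := by
    intro y s hs
    have e : S y = ‖FB γ ε y‖ := rfl
    rw [e, pi_norm_le_iff_of_nonneg hs]
    constructor
    · intro h
      refine ⟨?_, fun i => ?_⟩
      · have h1 := h 0
        rw [FB_zero, Real.norm_eq_abs, abs_mul, abs_inv, abs_of_pos hNpos, inv_mul_le_iff₀ hNpos] at h1
        linarith
      · have h1 := h i.succ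
        rw [FB_succ, Real.norm_eq_abs, abs_mul, abs_inv, abs_of_pos hε, inv_mul_le_iff₀ hε] at h1
        linarith
    · rintro ⟨h1, h2⟩ j
      refine Fin.cases ?_ (fun i => ?_) j
      · rw [FB_zero, Real.norm_eq_abs, abs_mul, abs_inv, abs_of_pos hNpos, inv_mul_le_iff₀ hNpos]
        linarith
      · rw [FB_succ, Real.norm_eq_abs, abs_mul, abs_inv, abs_of_pos hε, inv_mul_le_iff₀ hε]
        have := h2 i
        linarith
  have hfin : ∀ r, (H112.LL S r).Finite := by
    refine LL_finite S (ρ := N * N + N + ε) fun y hy => ?_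
    obtain ⟨h1, h2⟩ := (hS1 y 1 zero_le_one).mp hy
    rw [one_mul] at h1
    rw [pi_norm_le_iff_of_nonneg (by positivity)]
    intro j
    refine Fin.cases ?_ (fun i => ?_) j
    · rw [Real.norm_eq_abs]
      nlinarith
    · have h3 := h2 i
      rw [one_mul] at h3
      rw [Real.norm_eq_abs]
      have h4 : |((γ i).val : ℝ) / N * y 0| ≤ N * N := by
        rw [abs_mul]
        have h5 : |((γ i).val : ℝ) / N| ≤ N := by
          rw [abs_of_nonneg (by positivity), div_le_iff₀ hNpos]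
          have h6 : ((γ i).val : ℝ) ≤ N := by exact_mod_cast (ZMod.val_lt (γ i)).le
          have h7 : (1 : ℝ) ≤ N := by exact_mod_cast NeZero.pos N
          nlinarith
        exact mul_le_mul h5 h1 (abs_nonneg _) hNpos.le
      have h5 : |y i.succ| ≤ |((γ i).val : ℝ) / N * y 0| +
          |((γ i).val : ℝ) / N * y 0 - y i.succ| := by
        have := abs_sub_abs_le_abs_sub (y i.succ) (((γ i).val : ℝ) / N * y 0)
        rw [abs_sub_comm] at this
        linarith
      linarith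
  obtain ⟨ψ, hψ⟩ : ∃ ψ : (Fin (d + 1) → ℤ) →+ ZMod N, ∀ n, ψ n = (n 0 : ZMod N) :=
    ⟨⟨⟨fun n => (n 0 : ZMod N), by simp⟩, fun n n' => by simp⟩, fun n => rfl⟩
  obtain ⟨k, v, L, T, hkm, hgap, hcov, -, -, hT⟩ := cover_box S (r := 1) zero_le_one (hfin _)
  have hmem : ∀ c ∈ H112.LL S 1, ∀ g ∈ Γ, CB.nn (g * ψ c) ≤ ε := by
    intro c hc g hg
    obtain ⟨i, rfl⟩ := hγ2 g hg
    have h1 := ((hS1 _ 1 zero_le_one).mp hc).2 i
    rw [one_mul] at h1
    have h2 := CB.nint_eq_nn (N := N) (((γ i).val : ℤ) * c 0) (γ i * ψ c) (by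
      rw [hψ]
      push_cast
      rw [ZMod.natCast_zmod_val])
    rw [← h2]
    unfold CB.nint
    have h3 := round_le ((((γ i).val : ℤ) * c 0 : ℤ) / (N : ℝ)) (c i.succ)
    refine h3.trans ?_
    refine le_trans (le_of_eq ?_) h1
    congr 1
    push_cast
    ring
  have hev : ∀ n : Fin k → ℤ, GP.ev (fun i => ψ (v i)) n = ψ (∑ i, n i • v i) := by
    intro n
    unfold GP.ev
    rw [map_sum]
    refine sum_congr rfl fun i _ => ?_
    rw [map_zsmul, zsmul_eq_mul]
  refine ⟨k, fun i => ψ (v i), L, hkm, ?_, ?_⟩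
  · intro x hx
    unfold GP.XX at hx
    rw [mem_image] at hx
    obtain ⟨n, hn, rfl⟩ := hx
    rw [GP.mem_box] at hn
    rw [hev]
    exact hmem _ (hgap n hn)
  · have h1 : (univ.filter fun x : ZMod N => ∀ g ∈ Γ, CB.nn (g * x) ≤ ε) ⊆
        (T ×ˢ GP.XX (fun i => ψ (v i)) L).image fun p => ψ p.1 + p.2 := by
      intro x hx
      rw [mem_filter] at hx
      set c : Fin (d + 1) → ℤ := Fin.cons (x.val : ℤ)
        (fun i => round ((((γ i).val : ℤ) * (x.val : ℤ) : ℤ) / (N : ℝ))) with hc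
      have hcx : ψ c = x := by
        rw [hψ, hc, Fin.cons_zero]
        push_cast
        exact ZMod.natCast_zmod_val x
      have hcL : c ∈ H112.LL S 1 := by
        refine (hS1 _ 1 zero_le_one).mpr ⟨?_, fun i => ?_⟩
        · rw [hc, Fin.cons_zero, one_mul]
          push_cast
          rw [abs_of_nonneg (by positivity)]
          exact_mod_cast (ZMod.val_lt x).le
        · have h2 := hx.2 (γ i) (hγ1 i)
          have h3 := CB.nint_eq_nn (N := N) (((γ i).val : ℤ) * (x.val : ℤ)) (γ i * x) (by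
            push_cast
            rw [ZMod.natCast_zmod_val, ZMod.natCast_zmod_val])
          rw [← h3] at h2
          unfold CB.nint at h2
          rw [one_mul, hc, Fin.cons_zero, Fin.cons_succ]
          refine le_trans (le_of_eq ?_) h2
          congr 1
          push_cast
          ring
      obtain ⟨t, ht, n, hn, hcn⟩ := hcov c hcL
      rw [mem_image]
      refine ⟨(t, GP.ev (fun i => ψ (v i)) n), ?_, ?_⟩
      · rw [mem_product]
        refine ⟨ht, ?_⟩
        unfold GP.XX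
        exact mem_image_of_mem _ ((GP.mem_box _ _).mpr hn)
      · change ψ t + GP.ev (fun i => ψ (v i)) n = x
        rw [hev, ← map_add, ← hcn, hcx]
    have h2 : (univ.filter fun x : ZMod N => ∀ g ∈ Γ, CB.nn (g * x) ≤ ε).card ≤
        T.card * (GP.XX (fun i => ψ (v i)) L).card := by
      calc _ ≤ ((T ×ˢ GP.XX (fun i => ψ (v i)) L).image fun p => ψ p.1 + p.2).card := card_le_card h1
        _ ≤ (T ×ˢ GP.XX (fun i => ψ (v i)) L).card := card_image_le
        _ = _ := card_product _ _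
    calc ((univ.filter fun x : ZMod N => ∀ g ∈ Γ, CB.nn (g * x) ≤ ε).card : ℝ) ≤
          (T.card : ℝ) * (GP.XX (fun i => ψ (v i)) L).card := by exact_mod_cast h2
      _ ≤ _ := by
          apply mul_le_mul_of_nonneg_right hT (Nat.cast_nonneg _)

end Pool.Agent.X164.BO
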