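import Mathlib
import Pool.Agent.X164.BO.Tr

set_option autoImplicit false

/-! # Lifting progressions of `ℤ/M` to the integers (helper164) -/

namespace Pool.Agent.X164.BO

open Finset Pool.Agent.TH858

/-- a progression of integers -/
noncomputable def IX {k : ℕ} (b : Fin k → ℤ) (L : Fin k → ℕ) : Finset ℤ :=
  (GP.box L).image fun n => ∑ i, n i * b i

lemma vma {M : ℕ} [NeZero M] (z : ℤ) (h : 2 * |z| < M) : ((z : ZMod M)).valMinAbs = z := by
  rw [ZMod.valMinAbs_spec]
  refine ⟨rfl, ?_⟩
  have h1 := neg_abs_le z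
  have h2 := le_abs_self z
  rw [Set.mem_Ioc]
  constructor <;> linarith

/-- integer lift of a progression of `ℤ/M` whose elements have small representatives -/
theorem lift_int {M : ℕ} [NeZero M] {k : ℕ} (a : Fin k → ZMod M) (L : Fin k → ℕ)
    (hsm : ∀ x ∈ GP.XX a L, 4 * |x.valMinAbs| < M) :
    ∃ b : Fin k → ℤ, ∀ n ∈ GP.box L, ∑ i, n i * b i = (GP.ev a n).valMinAbs := by
  classical
  refine ⟨fun i => if L i = 0 then 0 else (a i).valMinAbs, ?_⟩
  have hXX : ∀ n ∈ GP.box L, 4 * |(GP.ev a n).valMinAbs| < M := fun n hn => hsm _ (by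
    unfold GP.XX
    exact mem_image_of_mem _ hn)
  suffices H : ∀ t : ℕ, ∀ n ∈ GP.box L, ∑ i, (n i).natAbs = t →
      ∑ i, n i * (if L i = 0 then 0 else (a i).valMinAbs) = (GP.ev a n).valMinAbs from
    fun n hn => H _ n hn rfl
  intro t
  induction t with
  | zero =>
    intro n hn h0
    have h1 : ∀ i, n i = 0 := by
      intro i
      have := (sum_eq_zero_iff.mp h0) i (mem_univ i)
      omega
    have h2 : n = 0 := funext h1
    subst h2
    unfold GP.ev
    simp
  | succ t ih =>
    intro n hn ht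
    have hex : ∃ j, n j ≠ 0 := by
      by_contra hcon
      push Not at hcon
      have : ∑ i, (n i).natAbs = 0 := sum_eq_zero fun i _ => by rw [hcon i]; rfl
      omega
    obtain ⟨j, hj⟩ := hex
    have hnb := (GP.mem_box L n).mp hn
    have hLj : L j ≠ 0 := by
      intro h
      have := hnb j
      rw [h] at this
      push_cast at this
      exact hj (abs_nonpos_iff.mp this)
    obtain ⟨σ, hσ, hσ1, hσ2⟩ : ∃ σ : ℤ, (σ = 1 ∨ σ = -1) ∧ (n j - σ).natAbs + 1 = (n j).natAbs ∧
        |n j - σ| ≤ |n j| := by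
      rcases lt_or_gt_of_ne hj with h | h
      · refine ⟨-1, Or.inr rfl, by omega, ?_⟩
        rw [abs_of_neg h, abs_le]
        constructor <;> omega
      · refine ⟨1, Or.inl rfl, by omega, ?_⟩
        rw [abs_of_pos h, abs_le]
        constructor <;> omega
    set n' : Fin k → ℤ := Function.update n j (n j - σ) with hn'
    have hn'b : n' ∈ GP.box L := by
      rw [GP.mem_box]
      intro i
      rcases eq_or_ne i j with h | h
      · rw [h, hn', Function.update_self]
        exact hσ2.trans (hnb j)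
      · rw [hn', Function.update_of_ne h]
        exact hnb i
    have ht' : ∑ i, (n' i).natAbs = t := by
      rw [← add_sum_erase univ _ (mem_univ j)] at ht ⊢
      have h1 : ∑ i ∈ univ.erase j, (n' i).natAbs = ∑ i ∈ univ.erase j, (n i).natAbs := by
        refine sum_congr rfl fun i hi => ?_
        rw [hn', Function.update_of_ne (ne_of_mem_erase hi)]
      rw [h1, hn', Function.update_self]
      omega
    have ih' := ih n' hn'b ht'
    -- the generator
    have hebox : Pi.single j (1 : ℤ) ∈ GP.box L := by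
      rw [GP.mem_box]
      intro i
      rcases eq_or_ne i j with h | h
      · subst h
        rw [Pi.single_eq_same]
        have : (1 : ℤ) ≤ L i := by exact_mod_cast Nat.one_le_iff_ne_zero.mpr hLj
        simpa using this
      · rw [Pi.single_eq_of_ne h]
        simp
    have heva : GP.ev a (Pi.single j (1 : ℤ)) = a j := by
      unfold GP.ev
      rw [sum_eq_single j]
      · simp
      · intro i _ h
        rw [Pi.single_eq_of_ne h]
        simp
      · intro h
        exact absurd (mem_univ j) h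
    have haj := hXX _ hebox
    rw [heva] at haj
    have hsum : ∑ i, n i * (if L i = 0 then 0 else (a i).valMinAbs) =
        ∑ i, n' i * (if L i = 0 then 0 else (a i).valMinAbs) + σ * (a j).valMinAbs := by
      rw [← add_sum_erase univ _ (mem_univ j), ← add_sum_erase univ
        (fun i => n' i * (if L i = 0 then 0 else (a i).valMinAbs)) (mem_univ j)]
      have h1 : ∑ i ∈ univ.erase j, n' i * (if L i = 0 then 0 else (a i).valMinAbs) =
          ∑ i ∈ univ.erase j, n i * (if L i = 0 then 0 else (a i).valMinAbs) := by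
        refine sum_congr rfl fun i hi => ?_
        rw [hn', Function.update_of_ne (ne_of_mem_erase hi)]
      rw [h1, hn', Function.update_self, if_neg hLj]
      ring
    have hev : GP.ev a n = GP.ev a n' + (σ : ZMod M) * a j := by
      unfold GP.ev
      rw [← add_sum_erase univ _ (mem_univ j), ← add_sum_erase univ
        (fun i => (n' i : ZMod M) * a i) (mem_univ j)]
      have h1 : ∑ i ∈ univ.erase j, (n' i : ZMod M) * a i =
          ∑ i ∈ univ.erase j, (n i : ZMod M) * a i := by
        refine sum_congr rfl fun i hi => ?_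
        rw [hn', Function.update_of_ne (ne_of_mem_erase hi)]
      rw [h1, hn', Function.update_self]
      push_cast
      ring
    rw [hsum, ih']
    have h1 := hXX n hn
    have h2 := hXX n' hn'b
    have hdvd : (M : ℤ) ∣ (GP.ev a n').valMinAbs + σ * (a j).valMinAbs - (GP.ev a n).valMinAbs := by
      rw [← ZMod.intCast_zmod_eq_zero_iff_dvd]
      push_cast
      rw [hev]
      ring
    have hlt : |(GP.ev a n').valMinAbs + σ * (a j).valMinAbs - (GP.ev a n).valMinAbs| < M := by
      have hσa : |σ * (a j).valMinAbs| = |(a j).valMinAbs| := by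
        rw [abs_mul]
        rcases hσ with h | h <;> rw [h] <;> simp
      have h3 : |(GP.ev a n').valMinAbs + σ * (a j).valMinAbs - (GP.ev a n).valMinAbs| ≤
          |(GP.ev a n').valMinAbs| + |(a j).valMinAbs| + |(GP.ev a n).valMinAbs| := by
        refine (abs_sub _ _).trans ?_
        have := abs_add_le ((GP.ev a n').valMinAbs) (σ * (a j).valMinAbs)
        rw [hσa] at this
        linarith
      linarith
    have := Int.eq_zero_of_abs_lt_dvd hdvd hlt
    linarith

/-- reduction of an integer progression -/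
lemma XX_cast {N : ℕ} {k : ℕ} (b : Fin k → ℤ) (n : Fin k → ℤ) :
    GP.ev (fun i => (b i : ZMod N)) n = ((∑ i, n i * b i : ℤ) : ZMod N) := by
  unfold GP.ev
  push_cast
  rfl

lemma card_cast {N : ℕ} (hN : 0 < N) {k : ℕ} (b : Fin k → ℤ) (L : Fin k → ℕ) (W : ℕ)
    (h : ∀ z ∈ IX b L, |z| ≤ W) :
    (IX b L).card ≤ (GP.XX (fun i => (b i : ZMod N)) L).card * (2 * (W / N + 1) + 1) := by
  classical
  have hNz : (0 : ℤ) < N := by exact_mod_cast hN
  have h1 : (IX b L).card ≤ (GP.XX (fun i => (b i : ZMod N)) L ×ˢ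
      Icc (-((W / N + 1 : ℕ) : ℤ)) ((W / N + 1 : ℕ) : ℤ)).card := by
    refine card_le_card_of_injOn (fun z => ((z : ZMod N), z / (N : ℤ))) ?_ ?_
    · intro z hz
      rw [mem_coe, mem_product]
      constructor
      · have hz' := hz
        rw [mem_coe] at hz'
        unfold IX at hz'
        rw [mem_image] at hz'
        obtain ⟨n, hn, rfl⟩ := hz'
        unfold GP.XX
        rw [mem_image]
        exact ⟨n, hn, XX_cast b n⟩
      · have h2 := abs_le.mp (h z hz)
        have hW : (W : ℤ) / (N : ℤ) = ((W / N : ℕ) : ℤ) := by push_cast; rfl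
        have h5 : (W : ℤ) < ((W / N : ℕ) + 1 : ℤ) * N := by
          have := Nat.lt_div_mul_add (a := W) hN
          have h6 : W < (W / N + 1) * N := by rw [Nat.add_mul, one_mul]; exact this
          exact_mod_cast h6
        rw [mem_Icc]
        push_cast
        constructor
        · rw [Int.le_ediv_iff_mul_le hNz]
          push_cast at h5
          linarith
        · have h4 : z / (N : ℤ) < (W : ℤ) / (N : ℤ) + 1 + 1 := by
            rw [Int.ediv_lt_iff_lt_mul hNz]
            push_cast at h5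
            nlinarith
          linarith
    · intro z _ z' _ heq
      rw [Prod.mk.injEq] at heq
      have h3 : z % (N : ℤ) = z' % (N : ℤ) := (ZMod.intCast_eq_intCast_iff' z z' N).mp heq.1
      have h4 := Int.emod_add_mul_ediv z N
      have h5 := Int.emod_add_mul_ediv z' N
      rw [← h4, ← h5, h3, heq.2]
  refine h1.trans (le_of_eq ?_)
  rw [card_product, Int.card_Icc]
  congr 1
  push_cast
  omega

/-- Progressions in `2A - 2A`, `A ⊆ ℤ/M` with small representatives, come from the integers. -/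
theorem lift_in {M : ℕ} [NeZero M] (A : Finset (ZMod M)) (s : ℕ) (hs : 8 * s ≤ M)
    (hA : ∀ x ∈ A, x.val < s) {k : ℕ} (a : Fin k → ZMod M) (L : Fin k → ℕ)
    (hsub : ∀ x ∈ GP.XX a L, ∃ a₁ ∈ A, ∃ a₂ ∈ A, ∃ a₃ ∈ A, ∃ a₄ ∈ A, x = a₁ + a₂ - a₃ - a₄) :
    ∃ b : Fin k → ℤ, (∀ z ∈ IX b L, ∃ a₁ ∈ A, ∃ a₂ ∈ A, ∃ a₃ ∈ A, ∃ a₄ ∈ A,
        z = (a₁.val : ℤ) + a₂.val - a₃.val - a₄.val) ∧
      (GP.XX a L).card ≤ (IX b L).card ∧ ∀ z ∈ IX b L, |z| ≤ (2 * s : ℕ) := by
  classical
  have key : ∀ x ∈ GP.XX a L, ∃ a₁ ∈ A, ∃ a₂ ∈ A, ∃ a₃ ∈ A, ∃ a₄ ∈ A,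
      x.valMinAbs = (a₁.val : ℤ) + a₂.val - a₃.val - a₄.val ∧ 4 * |x.valMinAbs| < M ∧
      |x.valMinAbs| ≤ 2 * s := by
    intro x hx
    obtain ⟨a₁, h₁, a₂, h₂, a₃, h₃, a₄, h₄, hxa⟩ := hsub x hx
    refine ⟨a₁, h₁, a₂, h₂, a₃, h₃, a₄, h₄, ?_⟩
    have e₁ := hA a₁ h₁
    have e₂ := hA a₂ h₂
    have e₃ := hA a₃ h₃
    have e₄ := hA a₄ h₄
    have hz : |(a₁.val : ℤ) + a₂.val - a₃.val - a₄.val| + 2 ≤ 2 * (s : ℤ) := by
      have : |(a₁.val : ℤ) + a₂.val - a₃.val - a₄.val| ≤ 2 * (s : ℤ) - 2 := by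
        rw [abs_le]
        constructor <;> omega
      linarith
    have hx2 : x = (((a₁.val : ℤ) + a₂.val - a₃.val - a₄.val : ℤ) : ZMod M) := by
      push_cast
      rw [ZMod.natCast_zmod_val, ZMod.natCast_zmod_val, ZMod.natCast_zmod_val, ZMod.natCast_zmod_val,
        hxa]
    have hs' : 8 * (s : ℤ) ≤ M := by exact_mod_cast hs
    have hv : x.valMinAbs = (a₁.val : ℤ) + a₂.val - a₃.val - a₄.val := by
      rw [hx2]
      apply vma
      linarith
    rw [hv]
    exact ⟨rfl, by linarith, by linarith⟩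
  obtain ⟨b, hb⟩ := lift_int a L fun x hx => by
    obtain ⟨_, _, _, _, _, _, _, _, -, h, -⟩ := key x hx
    exact h
  have hz : ∀ z ∈ IX b L, ∃ x ∈ GP.XX a L, z = x.valMinAbs := by
    intro z hz
    unfold IX at hz
    rw [mem_image] at hz
    obtain ⟨n, hn, rfl⟩ := hz
    refine ⟨GP.ev a n, ?_, hb n hn⟩
    unfold GP.XX
    exact mem_image_of_mem _ hn
  refine ⟨b, ?_, ?_, ?_⟩
  · intro z hz'
    obtain ⟨x, hx, rfl⟩ := hz z hz'
    obtain ⟨a₁, h₁, a₂, h₂, a₃, h₃, a₄, h₄, h, -, -⟩ := key x hx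
    exact ⟨a₁, h₁, a₂, h₂, a₃, h₃, a₄, h₄, h⟩
  · refine card_le_card_of_surjOn (fun z : ℤ => (z : ZMod M)) ?_
    intro x hx
    rw [mem_coe] at hx
    unfold GP.XX at hx
    rw [mem_image] at hx
    obtain ⟨n, hn, rfl⟩ := hx
    refine ⟨∑ i, n i * b i, ?_, ?_⟩
    · rw [mem_coe]
      unfold IX
      exact mem_image_of_mem (fun n : Fin k → ℤ => ∑ i, n i * b i) hn
    · change ((∑ i, n i * b i : ℤ) : ZMod M) = _
      rw [hb n hn, ZMod.coe_valMinAbs]
  · intro z hz'
    obtain ⟨x, hx, rfl⟩ := hz z hz'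
    obtain ⟨_, _, _, _, _, _, _, _, -, -, h⟩ := key x hx
    push_cast
    exact h

end Pool.Agent.X164.BO
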