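import Mathlib
import Pool.Agent.X164.BO.Tr2

set_option autoImplicit false

/-! # Equivalent forms of the polynomial Bogolyubov conjecture in cyclic groups (helper164) -/

namespace Pool.Agent.X164.BO

open Finset Pool.Agent.TH858

/-- Bohr sets in `2A - 2A`, moduli in `𝓜` -/
def QB (𝓜 : Set ℕ) (C c : ℝ) : Prop :=
  ∀ N ∈ 𝓜, 0 < N → ∀ A : Finset (ZMod N), A.Nonempty → (A.card : ℝ) / (N : ℝ) ≤ 1 / 2 →
    ∃ (Γ : Finset (ZMod N)) (ε : ℝ), 0 < ε ∧
      (Γ.card : ℝ) ≤ C * Real.log ((N : ℝ) / (A.card : ℝ)) ∧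
      c / Real.log ((N : ℝ) / (A.card : ℝ)) ≤ ε ∧
      ∀ x : ZMod N, (∀ g ∈ Γ, CB.nn (g * x) ≤ ε) →
        ∃ a₁ ∈ A, ∃ a₂ ∈ A, ∃ a₃ ∈ A, ∃ a₄ ∈ A, x = a₁ + a₂ - a₃ - a₄

/-- progressions in `2A - 2A`, moduli in `𝓜` -/
def QP (𝓜 : Set ℕ) (C : ℝ) : Prop :=
  ∀ N ∈ 𝓜, 0 < N → ∀ A : Finset (ZMod N), A.Nonempty → (A.card : ℝ) / (N : ℝ) ≤ 1 / 2 →
    ∃ (k : ℕ) (a : Fin k → ZMod N) (L : Fin k → ℕ),
      (k : ℝ) ≤ C * Real.log ((N : ℝ) / (A.card : ℝ)) ∧
      Real.log ((N : ℝ) / ((GP.XX a L).card : ℝ)) ≤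
        C * Real.log ((N : ℝ) / (A.card : ℝ)) * Real.log (2 + Real.log ((N : ℝ) / (A.card : ℝ))) ∧
      ∀ x ∈ GP.XX a L, ∃ a₁ ∈ A, ∃ a₂ ∈ A, ∃ a₃ ∈ A, ∃ a₄ ∈ A, x = a₁ + a₂ - a₃ - a₄

/-- progressions in `2A - 2A` for sets of integers -/
def QI (C : ℝ) : Prop :=
  ∀ n : ℕ, 0 < n → ∀ A : Finset ℤ, (∀ x ∈ A, 1 ≤ x ∧ x ≤ n) → A.Nonempty →
    (A.card : ℝ) / (n : ℝ) ≤ 1 / 2 →
    ∃ (k : ℕ) (b : Fin k → ℤ) (L : Fin k → ℕ),
      (k : ℝ) ≤ C * Real.log ((n : ℝ) / (A.card : ℝ)) ∧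
      Real.log ((n : ℝ) / ((IX b L).card : ℝ)) ≤
        C * Real.log ((n : ℝ) / (A.card : ℝ)) * Real.log (2 + Real.log ((n : ℝ) / (A.card : ℝ))) ∧
      ∀ z ∈ IX b L, ∃ a₁ ∈ A, ∃ a₂ ∈ A, ∃ a₃ ∈ A, ∃ a₄ ∈ A, z = a₁ + a₂ - a₃ - a₄

lemma XX_pos {N k : ℕ} (a : Fin k → ZMod N) (L : Fin k → ℕ) : 0 < (GP.XX a L).card := by
  refine card_pos.mpr ⟨GP.ev a 0, ?_⟩
  unfold GP.XX
  refine mem_image_of_mem _ ?_
  rw [GP.mem_box]
  intro i
  simp

lemma IX_pos {k : ℕ} (b : Fin k → ℤ) (L : Fin k → ℕ) : 0 < (IX b L).card := by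
  refine card_pos.mpr ⟨0, ?_⟩
  unfold IX
  rw [mem_image]
  refine ⟨0, ?_, by simp⟩
  rw [GP.mem_box]
  intro i
  simp

lemma log_ratio {x y : ℝ} (hx : 0 < x) (hy : 0 < y) (h : x / y ≤ 1 / 2) : Real.log 2 ≤ Real.log (y / x) := by
  apply Real.log_le_log (by norm_num)
  rw [div_le_iff₀ hy] at h
  rw [le_div_iff₀ hx]
  linarith

/-- final step -/
theorem finish {N : ℕ} [NeZero N] {k : ℕ} (a : Fin k → ZMod N) (L : Fin k → ℕ) (C l : ℝ)
    (hC : 0 < C) (hl : Real.log 2 ≤ l) (hk : (k : ℝ) ≤ C * l)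
    (hlog : Real.log (N / (GP.XX a L).card) ≤ 2 + C * l * Real.log (2 + l)) :
    ∃ (Γ : Finset (ZMod N)) (ε : ℝ), 0 < ε ∧ (Γ.card : ℝ) ≤ (190 * C + 300) * l ∧
      (1 / (8 * (C + 6))) / l ≤ ε ∧ ∀ x, (∀ g ∈ Γ, CB.nn (g * x) ≤ ε) → x ∈ GP.XX a L := by
  have hlog2 := Real.log_two_gt_d9
  have hl0 : 0 < l := by linarith
  obtain ⟨R, hR⟩ : ∃ R : ℝ, R = (C + 6) * l := ⟨_, rfl⟩
  have hR6 : 6 * l ≤ R := by
    rw [hR]
    nlinarith
  have hRC : C * l + 4 ≤ R := by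
    rw [hR]
    nlinarith
  have hCl : 0 < C * l := mul_pos hC hl0
  have hR4 : 4 ≤ R := by linarith
  obtain ⟨Γ, hΓ, hΓ'⟩ := improper a L R (by linarith)
  have hlogR : 0 < Real.log R := Real.log_pos (by linarith)
  have hlogR1 : 1 ≤ Real.log R := by
    have h6 : Real.log 4 ≤ Real.log R := Real.log_le_log (by norm_num) hR4
    have h7 : (1 : ℝ) ≤ Real.log 4 := by
      rw [show (4 : ℝ) = 2 ^ 2 by norm_num, Real.log_pow]
      push_cast
      linarith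
    linarith
  refine ⟨Γ, 1 / (8 * R), by positivity, ?_, ?_, hΓ'⟩
  · have hlog' : Real.log (2 + l) ≤ 2 * Real.log R := by
      have h3 : 2 + l ≤ R ^ 2 := by nlinarith
      have h4 := Real.log_le_log (by linarith) h3
      rw [Real.log_pow] at h4
      push_cast at h4
      exact h4
    have h5 : Real.log (N / (GP.XX a L).card) / Real.log R ≤ 2 + 2 * (C * l) := by
      rw [div_le_iff₀ hlogR]
      calc Real.log (N / (GP.XX a L).card) ≤ 2 + C * l * Real.log (2 + l) := hlog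
        _ ≤ 2 * Real.log R + C * l * (2 * Real.log R) := by
            have := mul_le_mul_of_nonneg_left hlog' hCl.le
            linarith
        _ = (2 + 2 * (C * l)) * Real.log R := by ring
    linarith
  · rw [hR, div_div]
    apply le_of_eq
    congr 1
    ring

/-- Bohr sets give progressions -/
theorem QB_QP (𝓜 : Set ℕ) (C c : ℝ) (hC : 0 < C) (hc : 0 < c) (h : QB 𝓜 C c) :
    QP 𝓜 (C * (1 + 3 / (2 * c)) + (C + 2) * (18 + 6 * C)) := by
  classical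
  intro N hN hN0 A hA hα
  have : NeZero N := ⟨hN0.ne'⟩
  have hNr : (0 : ℝ) < N := by exact_mod_cast hN0
  have hAr : (0 : ℝ) < A.card := by exact_mod_cast hA.card_pos
  obtain ⟨l, hl⟩ : ∃ l : ℝ, l = Real.log ((N : ℝ) / (A.card : ℝ)) := ⟨_, rfl⟩
  have hl2 : Real.log 2 ≤ l := by rw [hl]; exact log_ratio hAr hNr hα
  have hlog2 := Real.log_two_gt_d9
  have hl0 : 0 < l := by linarith
  obtain ⟨Γ, ε, hε, hΓ, hεl, hsub⟩ := h N hN hN0 A hA hα
  rw [← hl] at hΓ hεl ⊢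
  set q : ℕ := ⌈l / c⌉₊ with hq
  have hlc : 0 < l / c := by positivity
  have hq0 : 0 < q := Nat.ceil_pos.mpr hlc
  have hqr : (0 : ℝ) < q := by exact_mod_cast hq0
  have hq1 : l / c ≤ q := Nat.le_ceil _
  have hq2 : (q : ℝ) ≤ l / c + 1 := (Nat.ceil_lt_add_one hlc.le).le
  have hqε : 1 / (q : ℝ) ≤ ε := by
    refine le_trans ?_ hεl
    rw [div_le_div_iff₀ hqr hl0, one_mul]
    rw [div_le_iff₀ hc] at hq1
    linarith
  obtain ⟨k, a, L, hk, hXX, hcard⟩ := bohr_prog Γ (1 / q) (by positivity)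
  have hlarge := bohr_large Γ q hq0
  obtain ⟨m, hm⟩ : ∃ m : ℕ, m = Γ.card + 1 := ⟨_, rfl⟩
  rw [← hm] at hk hcard
  have hmr : (m : ℝ) = Γ.card + 1 := by rw [hm]; push_cast; ring
  have hm1 : (1 : ℝ) ≤ m := by
    rw [hmr]
    have : (0 : ℝ) ≤ Γ.card := Nat.cast_nonneg _
    linarith
  have hm2 : (m : ℝ) ≤ (C + 2) * l := by
    rw [hmr]
    nlinarith
  have hXr : (0 : ℝ) < (GP.XX a L).card := by exact_mod_cast XX_pos a L
  -- the sizes
  have h1 : (N : ℝ) / (GP.XX a L).card ≤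
      (q : ℝ) ^ Γ.card * ((4 * m + 1) * (12 * (m : ℝ) ^ 3)) ^ m := by
    rw [div_le_iff₀ hXr, mul_pow]
    have h2 : (N : ℝ) ≤ (q : ℝ) ^ Γ.card *
        ((univ.filter fun x : ZMod N => ∀ g ∈ Γ, CB.nn (g * x) ≤ 1 / q).card : ℝ) := by
      exact_mod_cast hlarge
    calc (N : ℝ) ≤ (q : ℝ) ^ Γ.card *
          ((univ.filter fun x : ZMod N => ∀ g ∈ Γ, CB.nn (g * x) ≤ 1 / q).card : ℝ) := h2
      _ ≤ (q : ℝ) ^ Γ.card * ((4 * m + 1) ^ m * (12 * (m : ℝ) ^ 3) ^ m * (GP.XX a L).card) := by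
          gcongr
      _ = _ := by ring
  have hll : 0 < Real.log (2 + l) := Real.log_pos (by linarith)
  have hll2 : Real.log 2 ≤ Real.log (2 + l) := Real.log_le_log (by norm_num) (by linarith)
  have hlogq : Real.log q ≤ (1 + 3 / (2 * c)) * Real.log (2 + l) := by
    have e1 : (q : ℝ) ≤ (1 + 1 / c) * (2 + l) := by
      refine hq2.trans ?_
      have e2 : (1 + 1 / c) * (2 + l) = 2 + l + 2 / c + l / c := by
        field_simp
        ring
      rw [e2]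
      have : 0 < 2 / c := by positivity
      linarith
    have e2 := Real.log_le_log hqr e1
    rw [Real.log_mul (by positivity) (by positivity)] at e2
    have e3 : Real.log (1 + 1 / c) ≤ 1 / c := by
      have := Real.log_le_sub_one_of_pos (show 0 < 1 + 1 / c by positivity)
      linarith
    have e4 : 1 / c ≤ 3 / (2 * c) * Real.log (2 + l) := by
      have e5 : 3 / (2 * c) * Real.log (2 + l) = 1 / c * (3 / 2 * Real.log (2 + l)) := by
        field_simp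
      rw [e5]
      have e6 : (1 : ℝ) ≤ 3 / 2 * Real.log (2 + l) := by linarith
      have e7 : 0 < 1 / c := by positivity
      nlinarith
    nlinarith
  have hlogm : Real.log ((4 * m + 1) * (12 * (m : ℝ) ^ 3)) ≤ (18 + 6 * C) * Real.log (2 + l) := by
    have e1 : (4 * (m : ℝ) + 1) * (12 * (m : ℝ) ^ 3) ≤ 60 * (m : ℝ) ^ 4 := by
      have : 4 * (m : ℝ) + 1 ≤ 5 * m := by linarith
      calc (4 * (m : ℝ) + 1) * (12 * (m : ℝ) ^ 3) ≤ 5 * m * (12 * (m : ℝ) ^ 3) := by gcongr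
        _ = _ := by ring
    have e2 := Real.log_le_log (by positivity) e1
    have e2b : Real.log (60 * (m : ℝ) ^ 4) = Real.log 60 + 4 * Real.log m := by
      rw [Real.log_mul (by norm_num) (by positivity), Real.log_pow]
      push_cast
      ring
    rw [e2b] at e2
    have e3 : Real.log 60 ≤ 5 := by
      rw [Real.log_le_iff_le_exp (by norm_num)]
      have e5 : Real.exp 5 = (Real.exp 1) ^ 5 := by
        rw [← Real.exp_nat_mul]; norm_num
      rw [e5]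
      have := Real.exp_one_gt_d9
      have h8 : (2.7 : ℝ) ^ 5 ≤ (Real.exp 1) ^ 5 := pow_le_pow_left₀ (by norm_num) (by linarith) 5
      have h9 : (60 : ℝ) ≤ (2.7 : ℝ) ^ 5 := by norm_num
      linarith
    have e4 : Real.log m ≤ (C + 1) + Real.log (2 + l) := by
      have e5 : (m : ℝ) ≤ (C + 2) * (2 + l) := by
        refine hm2.trans ?_
        nlinarith
      have e6 := Real.log_le_log (by linarith) e5
      rw [Real.log_mul (by positivity) (by positivity)] at e6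
      have e7 := Real.log_le_sub_one_of_pos (show 0 < C + 2 by linarith)
      linarith
    have e8 : (1 : ℝ) ≤ 3 / 2 * Real.log (2 + l) := by linarith
    have e9 : 5 + 4 * ((C + 1) + Real.log (2 + l)) ≤ (18 + 6 * C) * Real.log (2 + l) := by
      have e10 := mul_le_mul_of_nonneg_left e8 (show 0 ≤ 9 + 4 * C by linarith)
      linarith
    linarith
  refine ⟨k, a, L, ?_, ?_, fun x hx => hsub x fun g hg => (hXX x hx g hg).trans hqε⟩
  · have e1 : (k : ℝ) ≤ m := by exact_mod_cast hk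
    have e2 : 0 ≤ C * (1 + 3 / (2 * c)) := by positivity
    have e3 : (C + 2) * l ≤ (C * (1 + 3 / (2 * c)) + (C + 2) * (18 + 6 * C)) * l := by
      apply mul_le_mul_of_nonneg_right _ hl0.le
      have e4 : (C + 2) * 1 ≤ (C + 2) * (18 + 6 * C) :=
        mul_le_mul_of_nonneg_left (by linarith) (by linarith)
      linarith
    linarith
  · have h2 := Real.log_le_log (by positivity) h1
    rw [Real.log_mul (by positivity) (by positivity), Real.log_pow, Real.log_pow] at h2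
    have h3 : (Γ.card : ℝ) * Real.log q ≤ (C * l) * ((1 + 3 / (2 * c)) * Real.log (2 + l)) := by
      calc (Γ.card : ℝ) * Real.log q ≤ (Γ.card : ℝ) * ((1 + 3 / (2 * c)) * Real.log (2 + l)) :=
            mul_le_mul_of_nonneg_left hlogq (Nat.cast_nonneg _)
        _ ≤ _ := by
            apply mul_le_mul_of_nonneg_right hΓ
            positivity
    have h4 : (m : ℝ) * Real.log ((4 * m + 1) * (12 * (m : ℝ) ^ 3)) ≤
        ((C + 2) * l) * ((18 + 6 * C) * Real.log (2 + l)) := by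
      calc (m : ℝ) * Real.log ((4 * m + 1) * (12 * (m : ℝ) ^ 3)) ≤
            (m : ℝ) * ((18 + 6 * C) * Real.log (2 + l)) :=
              mul_le_mul_of_nonneg_left hlogm (by linarith)
        _ ≤ _ := by
            apply mul_le_mul_of_nonneg_right hm2
            positivity
    calc Real.log ((N : ℝ) / (GP.XX a L).card) ≤ _ := h2
      _ ≤ (C * l) * ((1 + 3 / (2 * c)) * Real.log (2 + l)) +
          ((C + 2) * l) * ((18 + 6 * C) * Real.log (2 + l)) := add_le_add h3 h4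
      _ = _ := by ring

end Pool.Agent.X164.BO
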