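import Mathlib
import Pool.Agent.X164.BO.Tr3

set_option autoImplicit false

/-! # Equivalent forms of the polynomial Bogolyubov conjecture, II: changing the modulus (helper164) -/

namespace Pool.Agent.X164.BO

open Finset Pool.Agent.TH858

lemma log_six {l : ℝ} (hl : 0 < l) : Real.log (2 + 6 * l) ≤ 2 * Real.log (2 + l) := by
  have h1 : Real.log ((2 + l) ^ 2) = 2 * Real.log (2 + l) := by
    rw [Real.log_pow]
    push_cast
    ring
  rw [← h1]
  apply Real.log_le_log (by linarith)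
  nlinarith [sq_nonneg (l - 1)]

/-- the restricted copy of `A ⊆ ℤ/N` in `ℤ/M` -/
noncomputable def cp {N : ℕ} (M s : ℕ) (A : Finset (ZMod N)) [NeZero M] : Finset (ZMod M) :=
  univ.filter fun x : ZMod M => x.val < s ∧ ((x.val : ℕ) : ZMod N) ∈ A

lemma cp_lower {N M : ℕ} [NeZero N] [NeZero M] (s : ℕ) (hs : s ≤ M) (A : Finset (ZMod N)) :
    (s / N) * A.card ≤ (cp M s A).card := by
  classical
  have hN := NeZero.pos N
  rw [← card_range (s / N), ← card_product]
  have hval : ∀ p ∈ range (s / N) ×ˢ A, (((p.1 * N + p.2.val : ℕ) : ZMod M)).val = p.1 * N + p.2.val ∧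
      p.1 * N + p.2.val < s := by
    rintro ⟨j, y⟩ hp
    rw [mem_product, mem_range] at hp
    have h1 : y.val < N := ZMod.val_lt y
    have h2 : (j + 1) * N ≤ s := by
      calc (j + 1) * N ≤ (s / N) * N := Nat.mul_le_mul_right _ hp.1
        _ ≤ s := Nat.div_mul_le_self _ _
    have h3 : j * N + y.val < s := by
      rw [add_mul, one_mul] at h2
      omega
    exact ⟨ZMod.val_cast_of_lt (lt_of_lt_of_le h3 hs), h3⟩
  refine card_le_card_of_injOn (fun p => ((p.1 * N + p.2.val : ℕ) : ZMod M)) ?_ ?_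
  · intro p hp
    rw [mem_coe] at hp
    obtain ⟨h1, h2⟩ := hval p hp
    rw [mem_product] at hp
    unfold cp
    rw [mem_coe, mem_filter]
    refine ⟨mem_univ _, ?_, ?_⟩
    · rw [h1]; exact h2
    · rw [h1]
      push_cast
      rw [ZMod.natCast_self, mul_zero, zero_add, ZMod.natCast_zmod_val]
      exact hp.2
  · intro p hp p' hp' heq
    rw [mem_coe] at hp hp'
    have h1 := (hval p hp).1
    have h2 := (hval p' hp').1
    have h3 : p.1 * N + p.2.val = p'.1 * N + p'.2.val := by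
      rw [← h1, ← h2]
      exact congrArg ZMod.val heq
    have h4 : p.2.val < N := ZMod.val_lt _
    have h5 : p'.2.val < N := ZMod.val_lt _
    have h6 : p.2.val = p'.2.val := by
      have e1 : (p.1 * N + p.2.val) % N = p.2.val := by
        rw [Nat.mul_comm, Nat.mul_add_mod, Nat.mod_eq_of_lt h4]
      have e2 : (p'.1 * N + p'.2.val) % N = p'.2.val := by
        rw [Nat.mul_comm, Nat.mul_add_mod, Nat.mod_eq_of_lt h5]
      rw [← e1, ← e2, h3]
    have h7 : p.1 = p'.1 := by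
      have : p.1 * N = p'.1 * N := by omega
      exact Nat.eq_of_mul_eq_mul_right hN this
    exact Prod.ext h7 (ZMod.val_injective N h6)

lemma cp_upper {N M : ℕ} [NeZero M] (s : ℕ) (A : Finset (ZMod N)) : (cp M s A).card ≤ s := by
  classical
  refine le_trans (card_le_card_of_injOn (t := range s) ZMod.val (fun x hx => ?_)
    fun x _ y _ h => ZMod.val_injective M h) (card_range s).le
  unfold cp at hx
  rw [mem_coe, mem_filter] at hx
  rw [mem_coe, mem_range]
  exact hx.2.1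

/-- progressions for one sequence of moduli give Bohr sets for all moduli -/
theorem QP_QB (𝓜 : Set ℕ) (h𝓜 : 𝓜.Infinite) (C : ℝ) (hC : 0 < C) (h : QP 𝓜 C) :
    QB Set.univ (190 * (12 * C) + 300) (1 / (8 * (12 * C + 6))) := by
  classical
  intro N _ hN0 A hA hα
  have : NeZero N := ⟨hN0.ne'⟩
  have hNr : (0 : ℝ) < N := by exact_mod_cast hN0
  have hAr : (0 : ℝ) < A.card := by exact_mod_cast hA.card_pos
  obtain ⟨l, hl⟩ : ∃ l : ℝ, l = Real.log ((N : ℝ) / (A.card : ℝ)) := ⟨_, rfl⟩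
  have hl2 : Real.log 2 ≤ l := by rw [hl]; exact log_ratio hAr hNr hα
  have hlog2 := Real.log_two_gt_d9
  have hl0 : 0 < l := by linarith
  rw [← hl]
  obtain ⟨M, hM, hMN⟩ := h𝓜.exists_gt (32 * N + 32)
  have hM0 : 0 < M := by omega
  have : NeZero M := ⟨hM0.ne'⟩
  have hMr : (0 : ℝ) < M := by exact_mod_cast hM0
  obtain ⟨s, hs⟩ : ∃ s : ℕ, s = M / 8 := ⟨_, rfl⟩
  have hs8 : 8 * s ≤ M := by rw [hs]; exact Nat.mul_div_le M 8
  have hsM : M < 8 * s + 8 := by omega
  obtain ⟨A', hA'⟩ : ∃ A' : Finset (ZMod M), A' = cp M s A := ⟨_, rfl⟩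
  have hlow : (s / N) * A.card ≤ A'.card := by
    rw [hA']
    exact cp_lower s (by omega) A
  have hsN : M ≤ 32 * N * (s / N) := by
    have h1 : s < N * (s / N + 1) := Nat.lt_mul_div_succ s hN0
    have h2 : N * (s / N + 1) = N * (s / N) + N := by ring
    have h3 : 32 * N * (s / N) = 32 * (N * (s / N)) := by ring
    rw [h3]
    omega
  have hA'card : M * A.card ≤ 32 * N * A'.card := by
    calc M * A.card ≤ 32 * N * (s / N) * A.card := Nat.mul_le_mul_right _ hsN
      _ = 32 * N * ((s / N) * A.card) := by ring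
      _ ≤ _ := Nat.mul_le_mul_left _ hlow
  have hA'0 : 0 < A'.card := by
    by_contra h0
    have : A'.card = 0 := by omega
    rw [this, mul_zero] at hA'card
    have : 0 < M * A.card := Nat.mul_pos hM0 hA.card_pos
    omega
  have hA'r : (0 : ℝ) < A'.card := by exact_mod_cast hA'0
  have hA'up : (A'.card : ℝ) / (M : ℝ) ≤ 1 / 2 := by
    have h1 : A'.card ≤ s := by rw [hA']; exact cp_upper s A
    have h2 : 2 * A'.card ≤ M := by omega
    rw [div_le_div_iff₀ hMr (by norm_num), one_mul]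
    have h3 : ((2 * A'.card : ℕ) : ℝ) ≤ (M : ℝ) := by exact_mod_cast h2
    push_cast at h3
    linarith
  obtain ⟨k, a, L, hk, hsz, hsub⟩ := h M hM hM0 A' (card_pos.mp hA'0) hA'up
  obtain ⟨l', hl'⟩ : ∃ l' : ℝ, l' = Real.log ((M : ℝ) / (A'.card : ℝ)) := ⟨_, rfl⟩
  rw [← hl'] at hk hsz
  have hl'2 : Real.log 2 ≤ l' := by rw [hl']; exact log_ratio hA'r hMr hA'up
  have hl'6 : l' ≤ 6 * l := by
    have h1 : (M : ℝ) / A'.card ≤ 32 * (N / A.card) := by
      rw [← mul_div_assoc, div_le_div_iff₀ hA'r hAr]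
      exact_mod_cast hA'card
    have h2 := Real.log_le_log (by positivity) h1
    rw [Real.log_mul (by norm_num) (by positivity), ← hl, ← hl'] at h2
    have h3 : Real.log 32 = 5 * Real.log 2 := by
      rw [show (32 : ℝ) = 2 ^ 5 by norm_num, Real.log_pow]
      push_cast
      ring
    rw [h3] at h2
    linarith
  obtain ⟨b, hb1, hb2, hb3⟩ := lift_in A' s hs8 (by
    intro x hx
    rw [hA'] at hx
    unfold cp at hx
    rw [mem_filter] at hx
    exact hx.2.1) a L hsub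
  have hcc := card_cast hN0 b L (2 * s) hb3
  have hXr : (0 : ℝ) < (GP.XX a L).card := by exact_mod_cast XX_pos a L
  have hYr : (0 : ℝ) < (GP.XX (fun i => (b i : ZMod N)) L).card := by exact_mod_cast XX_pos _ L
  have hratio : (N : ℝ) / (GP.XX (fun i => (b i : ZMod N)) L).card ≤ M / (GP.XX a L).card := by
    rw [div_le_div_iff₀ hYr hXr]
    have h1 : N * (2 * (2 * s / N + 1) + 1) ≤ M := by
      have h2 : N * (2 * s / N) ≤ 2 * s := Nat.mul_div_le _ _
      have h3 : N * (2 * (2 * s / N + 1) + 1) = 2 * (N * (2 * s / N)) + 3 * N := by ring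
      rw [h3]
      omega
    have h4 : N * (GP.XX a L).card ≤ M * (GP.XX (fun i => (b i : ZMod N)) L).card := by
      calc N * (GP.XX a L).card ≤ N * ((GP.XX (fun i => (b i : ZMod N)) L).card *
            (2 * (2 * s / N + 1) + 1)) := Nat.mul_le_mul_left _ (hb2.trans hcc)
        _ = (N * (2 * (2 * s / N + 1) + 1)) * (GP.XX (fun i => (b i : ZMod N)) L).card := by ring
        _ ≤ _ := Nat.mul_le_mul_right _ h1
    exact_mod_cast h4
  have hll' : 0 < Real.log (2 + l') := Real.log_pos (by linarith)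
  obtain ⟨Γ, ε, hε, hΓ, hεl, hΓ2⟩ := finish (fun i => (b i : ZMod N)) L (12 * C) l (by positivity) hl2
    (by
      have : C * l' ≤ C * (6 * l) := mul_le_mul_of_nonneg_left hl'6 hC.le
      have hCl : 0 < C * l := mul_pos hC hl0
      linarith)
    (by
      have h1 := Real.log_le_log (by positivity) hratio
      have h2 : Real.log (2 + l') ≤ 2 * Real.log (2 + l) :=
        (Real.log_le_log (by linarith) (by linarith)).trans (log_six hl0)
      have h3 : C * l' * Real.log (2 + l') ≤ C * (6 * l) * (2 * Real.log (2 + l)) := by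
        apply mul_le_mul (mul_le_mul_of_nonneg_left hl'6 hC.le) h2 hll'.le
        positivity
      have h4 : C * (6 * l) * (2 * Real.log (2 + l)) = 12 * C * l * Real.log (2 + l) := by ring
      linarith)
  refine ⟨Γ, ε, hε, hΓ, hεl, fun x hx => ?_⟩
  have h1 := hΓ2 x hx
  unfold GP.XX at h1
  rw [mem_image] at h1
  obtain ⟨n, hn, rfl⟩ := h1
  obtain ⟨a₁, h₁, a₂, h₂, a₃, h₃, a₄, h₄, hz⟩ := hb1 (∑ i, n i * b i) (by
    unfold IX
    exact mem_image_of_mem (fun n : Fin k → ℤ => ∑ i, n i * b i) hn)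
  rw [hA'] at h₁ h₂ h₃ h₄
  unfold cp at h₁ h₂ h₃ h₄
  rw [mem_filter] at h₁ h₂ h₃ h₄
  refine ⟨_, h₁.2.2, _, h₂.2.2, _, h₃.2.2, _, h₄.2.2, ?_⟩
  rw [XX_cast, hz]
  push_cast
  ring

/-- the integer form -/
theorem QP_QI (C : ℝ) (hC : 0 < C) (h : QP Set.univ C) : QI (12 * C) := by
  classical
  intro n hn A hA1 hA hα
  have hnr : (0 : ℝ) < n := by exact_mod_cast hn
  have hAr : (0 : ℝ) < A.card := by exact_mod_cast hA.card_pos
  obtain ⟨l, hl⟩ : ∃ l : ℝ, l = Real.log ((n : ℝ) / (A.card : ℝ)) := ⟨_, rfl⟩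
  have hl2 : Real.log 2 ≤ l := by rw [hl]; exact log_ratio hAr hnr hα
  have hlog2 := Real.log_two_gt_d9
  have hl0 : 0 < l := by linarith
  rw [← hl]
  obtain ⟨M, hM⟩ : ∃ M : ℕ, M = 16 * n := ⟨_, rfl⟩
  have hM0 : 0 < M := by omega
  have : NeZero M := ⟨hM0.ne'⟩
  have hMr : (0 : ℝ) < M := by exact_mod_cast hM0
  set A' : Finset (ZMod M) := A.image fun z : ℤ => (z : ZMod M) with hA'
  have hval : ∀ z ∈ A, (((z : ZMod M)).val : ℤ) = z := by
    intro z hz
    obtain ⟨h1, h2⟩ := hA1 z hz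
    rw [ZMod.val_intCast]
    apply Int.emod_eq_of_lt (by linarith)
    rw [hM]
    push_cast
    linarith
  have hcard : A'.card = A.card := by
    rw [hA', card_image_of_injOn]
    intro z hz z' hz' heq
    rw [← hval z hz, ← hval z' hz']
    change (z : ZMod M) = (z' : ZMod M) at heq
    rw [heq]
  have hA'r : (0 : ℝ) < A'.card := by rw [hcard]; exact hAr
  have hMn : (M : ℝ) = 16 * n := by rw [hM]; push_cast; ring
  have hA'up : (A'.card : ℝ) / (M : ℝ) ≤ 1 / 2 := by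
    rw [hcard, hMn]
    rw [div_le_div_iff₀ hnr (by norm_num)] at hα
    rw [div_le_div_iff₀ (by positivity) (by norm_num)]
    linarith
  obtain ⟨k, a, L, hk, hsz, hsub⟩ := h M (Set.mem_univ _) hM0 A'
    (card_pos.mp (by rw [hcard]; exact hA.card_pos)) hA'up
  obtain ⟨l', hl'⟩ : ∃ l' : ℝ, l' = Real.log ((M : ℝ) / (A'.card : ℝ)) := ⟨_, rfl⟩
  rw [← hl'] at hk hsz
  have hl'2 : Real.log 2 ≤ l' := by rw [hl']; exact log_ratio hA'r hMr hA'up
  have hl'6 : l' ≤ 6 * l := by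
    rw [hl', hcard, hMn, mul_div_assoc, Real.log_mul (by norm_num) (by positivity), ← hl]
    have h3 : Real.log 16 = 4 * Real.log 2 := by
      rw [show (16 : ℝ) = 2 ^ 4 by norm_num, Real.log_pow]
      push_cast
      ring
    rw [h3]
    linarith
  obtain ⟨b, hb1, hb2, hb3⟩ := lift_in A' (n + 1) (by omega) (by
    intro x hx
    rw [hA', mem_image] at hx
    obtain ⟨z, hz, rfl⟩ := hx
    have h1 := hval z hz
    have h2 := (hA1 z hz).2
    have h3 : (((z : ZMod M)).val : ℤ) ≤ n := by rw [h1]; exact h2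
    have h4 : ((z : ZMod M)).val ≤ n := by exact_mod_cast h3
    omega) a L hsub
  have hXr : (0 : ℝ) < (GP.XX a L).card := by exact_mod_cast XX_pos a L
  have hIr : (0 : ℝ) < (IX b L).card := by exact_mod_cast IX_pos b L
  have hll' : 0 < Real.log (2 + l') := Real.log_pos (by linarith)
  refine ⟨k, b, L, ?_, ?_, fun z hz => ?_⟩
  · have : C * l' ≤ C * (6 * l) := mul_le_mul_of_nonneg_left hl'6 hC.le
    have hCl : 0 < C * l := mul_pos hC hl0
    linarith
  · have h0 : (n : ℝ) / (IX b L).card ≤ M / (GP.XX a L).card := by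
      rw [div_le_div_iff₀ hIr hXr]
      have h1 : n * (GP.XX a L).card ≤ M * (IX b L).card := Nat.mul_le_mul (by omega) hb2
      exact_mod_cast h1
    have h1 := Real.log_le_log (by positivity) h0
    have h2 : Real.log (2 + l') ≤ 2 * Real.log (2 + l) :=
      (Real.log_le_log (by linarith) (by linarith)).trans (log_six hl0)
    have h3 : C * l' * Real.log (2 + l') ≤ C * (6 * l) * (2 * Real.log (2 + l)) := by
      apply mul_le_mul (mul_le_mul_of_nonneg_left hl'6 hC.le) h2 hll'.le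
      positivity
    have h4 : C * (6 * l) * (2 * Real.log (2 + l)) = 12 * C * l * Real.log (2 + l) := by ring
    linarith
  · obtain ⟨a₁, h₁, a₂, h₂, a₃, h₃, a₄, h₄, hz'⟩ := hb1 z hz
    rw [hA', mem_image] at h₁ h₂ h₃ h₄
    obtain ⟨z₁, g₁, rfl⟩ := h₁
    obtain ⟨z₂, g₂, rfl⟩ := h₂
    obtain ⟨z₃, g₃, rfl⟩ := h₃
    obtain ⟨z₄, g₄, rfl⟩ := h₄
    rw [hval z₁ g₁, hval z₂ g₂, hval z₃ g₃, hval z₄ g₄] at hz'
    exact ⟨z₁, g₁, z₂, g₂, z₃, g₃, z₄, g₄, hz'⟩

/-- from the integers to all moduli -/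
theorem QI_QB (C : ℝ) (hC : 0 < C) (h : QI C) :
    QB Set.univ (190 * C + 300) (1 / (8 * (C + 6))) := by
  classical
  intro N _ hN0 A hA hα
  have : NeZero N := ⟨hN0.ne'⟩
  have hNr : (0 : ℝ) < N := by exact_mod_cast hN0
  have hAr : (0 : ℝ) < A.card := by exact_mod_cast hA.card_pos
  set A' : Finset ℤ := A.image fun x : ZMod N => (x.val : ℤ) + 1 with hA'
  have hcard : A'.card = A.card := by
    rw [hA', card_image_of_injOn]
    intro x _ y _ heq
    have h1 : x.val = y.val := by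
      have : (x.val : ℤ) + 1 = (y.val : ℤ) + 1 := heq
      omega
    exact ZMod.val_injective N h1
  have hA1 : ∀ z ∈ A', 1 ≤ z ∧ z ≤ N := by
    intro z hz
    rw [hA', mem_image] at hz
    obtain ⟨x, -, rfl⟩ := hz
    have := ZMod.val_lt x
    constructor <;> omega
  obtain ⟨k, b, L, hk, hsz, hsub⟩ := h N hN0 A' hA1 (card_pos.mp (by rw [hcard]; exact hA.card_pos))
    (by rw [hcard]; exact hα)
  rw [hcard] at hk hsz
  obtain ⟨l, hl⟩ : ∃ l : ℝ, l = Real.log ((N : ℝ) / (A.card : ℝ)) := ⟨_, rfl⟩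
  have hl2 : Real.log 2 ≤ l := by rw [hl]; exact log_ratio hAr hNr hα
  rw [← hl] at hk hsz ⊢
  have hb3 : ∀ z ∈ IX b L, |z| ≤ (2 * N : ℕ) := by
    intro z hz
    obtain ⟨a₁, h₁, a₂, h₂, a₃, h₃, a₄, h₄, rfl⟩ := hsub z hz
    have e₁ := hA1 a₁ h₁
    have e₂ := hA1 a₂ h₂
    have e₃ := hA1 a₃ h₃
    have e₄ := hA1 a₄ h₄
    push_cast
    rw [abs_le]
    constructor <;> linarith [e₁.1, e₁.2, e₂.1, e₂.2, e₃.1, e₃.2, e₄.1, e₄.2]
  have hcc := card_cast hN0 b L (2 * N) hb3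
  have hdiv : 2 * N / N = 2 := Nat.mul_div_cancel _ hN0
  rw [hdiv] at hcc
  have hIr : (0 : ℝ) < (IX b L).card := by exact_mod_cast IX_pos b L
  have hYr : (0 : ℝ) < (GP.XX (fun i => (b i : ZMod N)) L).card := by exact_mod_cast XX_pos _ L
  have hratio : (N : ℝ) / (GP.XX (fun i => (b i : ZMod N)) L).card ≤ 7 * (N / (IX b L).card) := by
    rw [← mul_div_assoc, div_le_div_iff₀ hYr hIr]
    have h1 : ((IX b L).card : ℝ) ≤ (GP.XX (fun i => (b i : ZMod N)) L).card * 7 := by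
      exact_mod_cast hcc
    nlinarith
  obtain ⟨Γ, ε, hε, hΓ, hεl, hΓ2⟩ := finish (fun i => (b i : ZMod N)) L C l hC hl2 hk (by
    have h1 := Real.log_le_log (by positivity) hratio
    rw [Real.log_mul (by norm_num) (by positivity)] at h1
    have h2 : Real.log 7 ≤ 2 := by
      rw [Real.log_le_iff_le_exp (by norm_num)]
      have e5 : Real.exp 2 = (Real.exp 1) ^ 2 := by
        rw [← Real.exp_nat_mul]; norm_num
      rw [e5]
      have := Real.exp_one_gt_d9
      nlinarith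
    linarith)
  refine ⟨Γ, ε, hε, hΓ, hεl, fun x hx => ?_⟩
  have h1 := hΓ2 x hx
  unfold GP.XX at h1
  rw [mem_image] at h1
  obtain ⟨n, hn, rfl⟩ := h1
  obtain ⟨a₁, h₁, a₂, h₂, a₃, h₃, a₄, h₄, hz⟩ := hsub (∑ i, n i * b i) (by
    unfold IX
    exact mem_image_of_mem (fun n : Fin k → ℤ => ∑ i, n i * b i) hn)
  rw [hA', mem_image] at h₁ h₂ h₃ h₄
  obtain ⟨x₁, g₁, rfl⟩ := h₁
  obtain ⟨x₂, g₂, rfl⟩ := h₂
  obtain ⟨x₃, g₃, rfl⟩ := h₃
  obtain ⟨x₄, g₄, rfl⟩ := h₄
  refine ⟨x₁, g₁, x₂, g₂, x₃, g₃, x₄, g₄, ?_⟩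
  rw [XX_cast, hz]
  push_cast
  rw [ZMod.natCast_zmod_val, ZMod.natCast_zmod_val, ZMod.natCast_zmod_val, ZMod.natCast_zmod_val]
  ring

end Pool.Agent.X164.BO
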